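import Pool.Agent.LibEnd63.Main

/-!
Relative deviations of fixed size: two corollaries.
-/

namespace Pool.Agent.LibEnd63

open Filter Topology
open Pool.Agent.LibMaier Pool.Agent.LibH

lemma gamma_mul {x : ℝ} : Real.exp Real.eulerMascheroniConstant * x - 1 =
    Real.exp Real.eulerMascheroniConstant * (x - Real.exp (-Real.eulerMascheroniConstant)) := by
  rw [mul_sub, ← Real.exp_add, add_neg_cancel, Real.exp_zero]

/-- for every exponent `κ > 0` there is a relative deviation `r > 0` -/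
theorem primes_rel_small {lam κ : ℝ} (hlam : 1 < lam) (hκ : 0 < κ) : ∃ r : ℝ, 0 < r ∧ r < 1 ∧
    ∀ c : ℝ, 0 < c → ∀ᶠ X : ℕ in atTop, ∀ s : ℝ, (s = 1 ∨ s = -1) →
      (X : ℝ) * Real.exp (-Real.log X ^ κ) ≤ (relCount {p : ℕ | p.Prime} lam c r s X : ℝ) := by
  set v : ℝ := lam + 2 * lam / κ with hv
  have hv1 : 1 < v := by
    have : 0 < 2 * lam / κ := by positivity
    linarith
  have hv0 : 0 < v := by linarith
  have hlv : ∀ u : ℝ, v ≤ u → lam < u ∧ lam / u ≤ κ / 2 := by
    intro u hu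
    have h1 : 0 < 2 * lam / κ := by positivity
    refine ⟨by linarith, ?_⟩
    rw [div_le_iff₀ (by linarith)]
    have h2 : κ / 2 * (2 * lam / κ) = lam := by field_simp
    have h3 : κ / 2 * (2 * lam / κ) ≤ κ / 2 * u := mul_le_mul_of_nonneg_left (by linarith)
      (by positivity)
    linarith
  obtain ⟨u₁, hu₁, hb₁⟩ := exists_buchstab_gt hv1.le
  obtain ⟨u₂, hu₂, hb₂⟩ := exists_buchstab_lt hv1.le
  set g : ℝ := Real.exp Real.eulerMascheroniConstant with hg
  have hg0 : 0 < g := Real.exp_pos _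
  have hd₁ : 0 < g * buchstab u₁ - 1 := by
    rw [hg, gamma_mul]
    exact mul_pos (Real.exp_pos _) (by linarith)
  have hd₂ : 0 < 1 - g * buchstab u₂ := by
    have h1 : g * buchstab u₂ - 1 < 0 := by
      rw [hg, gamma_mul]
      exact mul_neg_of_pos_of_neg (Real.exp_pos _) (by linarith)
    linarith
  obtain ⟨r, hr0, hr⟩ := exists_between (lt_min (lt_min hd₁ hd₂) one_pos)
  have hr1 : r < g * buchstab u₁ - 1 := hr.trans_le ((min_le_left _ _).trans (min_le_left _ _))
  have hr2 : r < 1 - g * buchstab u₂ := hr.trans_le ((min_le_left _ _).trans (min_le_right _ _))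
  have hr3 : r < 1 := hr.trans_le (min_le_right _ _)
  refine ⟨r, hr0, hr3, fun c hc => ?_⟩
  obtain ⟨k1, k2⟩ := hlv u₁ hu₁.1
  obtain ⟨k3, k4⟩ := hlv u₂ hu₂.1
  have hL : Tendsto (fun m : ℕ => Real.log (m : ℝ)) atTop atTop :=
    Real.tendsto_log_atTop.comp tendsto_natCast_atTop_atTop
  filter_upwards [primes_rel (e := κ / 2) hlam hc k1 hr0.le (by positivity) (Or.inl rfl)
    (by rw [one_mul]; exact hr1), primes_rel (e := κ / 2) hlam hc k3 hr0.le (by positivity)
    (Or.inr rfl) (by linarith), hL.eventually_ge_atTop 1] with X h1 h2 h3 s hs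
  have hmono : ∀ E : ℝ, E ≤ κ → (X : ℝ) * Real.exp (-Real.log X ^ κ) ≤
      X * Real.exp (-Real.log X ^ E) := by
    intro E hE
    apply mul_le_mul_of_nonneg_left _ (Nat.cast_nonneg _)
    apply Real.exp_le_exp.2
    have := Real.rpow_le_rpow_of_exponent_le h3 hE
    linarith
  rcases hs with rfl | rfl
  · exact (hmono _ (by linarith)).trans h1
  · exact (hmono _ (by linarith)).trans h2

/-- windows with few primes: every `r < 1 - e^γ / 2` -/
theorem primes_rel_low {lam r : ℝ} (hlam : 1 < lam) (hlam2 : lam ≤ 2) (hr : 0 ≤ r)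
    (hr2 : r < 1 - Real.exp Real.eulerMascheroniConstant / 2) : ∃ κ : ℝ, κ < 1 ∧
    ∀ c : ℝ, 0 < c → ∀ᶠ X : ℕ in atTop,
      (X : ℝ) * Real.exp (-Real.log X ^ κ) ≤
        (relCount {p : ℕ | p.Prime} lam c r (-1) X : ℝ) := by
  set g : ℝ := Real.exp Real.eulerMascheroniConstant with hg
  have hg0 : 0 < g := Real.exp_pos _
  obtain ⟨u, hu2, hgu⟩ : ∃ u : ℝ, 2 < u ∧ r < 1 - g * buchstab u := by
    set d : ℝ := (1 - g / 2 - r) / (2 * g) with hd
    have hd0 : 0 < d := by
      have : 0 < 1 - g / 2 - r := by linarith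
      positivity
    refine ⟨2 + d, by linarith, ?_⟩
    have h1 : |buchstab (2 + d) - buchstab 2| ≤ |2 + d - 2| :=
      abs_buchstab_sub_le (by linarith) (by norm_num)
    have h2 : buchstab 2 = 1 / 2 := buchstab_of_le' le_rfl
    rw [h2, show (2 : ℝ) + d - 2 = d by ring, abs_of_pos hd0] at h1
    have h3 := (abs_le.1 h1).2
    have h4 : g * buchstab (2 + d) ≤ g * (1 / 2 + d) := mul_le_mul_of_nonneg_left (by linarith) hg0.le
    have h5 : g * d = (1 - g / 2 - r) / 2 := by
      rw [hd]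
      field_simp
    have h6 : g * (1 / 2 + d) = g / 2 + g * d := by ring
    linarith
  have hlu : lam / u < 1 := by
    rw [div_lt_one (by linarith)]
    linarith
  refine ⟨lam / u + (1 - lam / u) / 2, by linarith, fun c hc => ?_⟩
  exact primes_rel hlam hc (by linarith) hr (by linarith) (Or.inr rfl) (by linarith)

end Pool.Agent.LibEnd63
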