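import Pool.Agent.LibH.Dev

/-!
Relative deviations of fixed size: the counting function.
-/

namespace Pool.Agent.LibEnd63

open Pool.Agent.LibH

open scoped Classical in
/-- the number of the `m ∈ [3, X]` for which the number of elements of `B` in the window
`(m, m + c (log m)^λ]` exceeds the mean `c (log m)^(λ-1)` by at least `r` times the mean (`s = 1`),
respectively falls short of it by at least `r` times the mean (`s = -1`) -/
noncomputable def relCount (B : Set ℕ) (lam c r s : ℝ) (X : ℕ) : ℕ :=
  ((Finset.Icc 3 X).filter (fun m =>
    r * mean lam c m ≤ s * ((cnt B m (hl lam c m) : ℝ) - mean lam c m))).card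

end Pool.Agent.LibEnd63
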