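import Pool.Agent.LibG2.Erase
import Pool.Agent.LibMaier.Mertens
import Pool.Agent.LibBuch99.RoughLower
import Pool.Agent.LibBuch99.BuchGt

/-!
The sieve by the primes `≤ z` except one prime, on `(0, z^u]`: Buchstab's function.
-/

namespace Pool.Agent.LibEnd63

open Filter Topology MeasureTheory
open Pool.Agent.LibMaier
open Pool.Agent.LibG2.PS (erz R V R_rec V_erz prime_of_mem)

lemma isBuchstab_buchstab : IsBuchstab buchstab where
  one_two := fun u h1 h2 => buchstab_of_le h1 h2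
  eqn := fun u h => buchstab_eq h
  nonneg := fun u h => le_trans (by norm_num) (buchstab_ge h)
  le_one := fun u h => buchstab_le h
  lip := fun u v hu hv => abs_buchstab_sub_le hu hv

lemma R_eq_rough (z N : ℕ) : Pool.Gal99.R z 0 N = (rough z N).card := by
  unfold Pool.Gal99.R rough
  congr 1
  ext n
  simp only [Finset.mem_filter, Finset.mem_Ioc, Finset.mem_Icc, zero_add]
  constructor
  · rintro ⟨⟨h1, h2⟩, h3⟩
    refine ⟨⟨h1, h2⟩, fun p hp hpp hd => ?_⟩
    have h4 : p ∣ Pool.Gal99.Pz z := by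
      unfold Pool.Gal99.Pz
      apply Finset.dvd_prod_of_mem
      unfold Pool.Gal99.pr
      rw [Finset.mem_filter, Finset.mem_range]
      exact ⟨by omega, hpp⟩
    have h5 := Nat.dvd_gcd hd h4
    rw [Nat.coprime_iff_gcd_eq_one.1 h3] at h5
    exact hpp.one_lt.ne' (Nat.dvd_one.1 h5)
  · rintro ⟨⟨h1, h2⟩, h3⟩
    refine ⟨⟨h1, h2⟩, ?_⟩
    unfold Pool.Gal99.Pz
    apply Nat.Coprime.prod_right
    intro p hp
    unfold Pool.Gal99.pr at hp
    rw [Finset.mem_filter, Finset.mem_range] at hp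
    exact (Nat.coprime_comm.1 ((Nat.Prime.coprime_iff_not_dvd hp.2).2 (h3 p (by omega) hp.2)))

lemma R_rec_real {z p : ℕ} (hp : p ∈ Pool.Gal99.pr z) (y : ℝ) :
    (R (erz z p) 0 ⌊y⌋₊ : ℝ) = (rough z ⌊y⌋₊).card + (R (erz z p) 0 ⌊y / p⌋₊ : ℝ) := by
  rw [R_rec hp, R_eq_rough, Nat.floor_div_natCast]
  push_cast
  rfl

lemma R_triv {z p : ℕ} {y : ℝ} (hy : 0 ≤ y) : (R (erz z p) 0 ⌊y⌋₊ : ℝ) ≤ y := by
  refine le_trans ?_ (Nat.floor_le hy)
  have h1 : R (erz z p) 0 ⌊y⌋₊ ≤ ⌊y⌋₊ := by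
    unfold R
    refine (Finset.card_filter_le _ _).trans ?_
    rw [Nat.card_Ioc]
    omega
  exact_mod_cast h1

lemma iter_upper {z p : ℕ} (hp : p ∈ Pool.Gal99.pr z) {Y₀ Y A : ℝ}
    (hA : ∀ y, Y₀ ≤ y → y ≤ Y → ((rough z ⌊y⌋₊).card : ℝ) ≤ A * y) : ∀ k : ℕ, ∀ y : ℝ, 0 ≤ y →
    y ≤ Y → (∀ j < k, Y₀ ≤ y / (p : ℝ) ^ j) → (R (erz z p) 0 ⌊y⌋₊ : ℝ) ≤
      A * y * (1 - ((p : ℝ) ^ k)⁻¹) / (1 - 1 / (p : ℝ)) + y / (p : ℝ) ^ k := by
  have hp2 : (2 : ℝ) ≤ p := by exact_mod_cast (prime_of_mem hp).two_le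
  have hp0 : (0 : ℝ) < p := by linarith
  have hp1 : (p : ℝ) - 1 ≠ 0 := by
    intro h
    linarith
  intro k
  induction k with
  | zero =>
    intro y hy _ _
    have := R_triv (z := z) (p := p) hy
    simpa using this
  | succ k ih =>
    intro y hy hyY hj
    have h1 := hA y (by have := hj 0 (by omega); simpa using this) hyY
    have h2 : y / p ≤ y := div_le_self hy (by linarith)
    have h3 := ih (y / p) (by positivity) (h2.trans hyY) (by
      intro j hjk
      have := hj (j + 1) (by omega)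
      rw [div_div, ← pow_succ']
      exact this)
    rw [R_rec_real hp]
    refine (add_le_add h1 h3).trans (le_of_eq ?_)
    field_simp
    ring

lemma iter_lower {z p : ℕ} (hp : p ∈ Pool.Gal99.pr z) {Y₀ Y A : ℝ}
    (hA : ∀ y, Y₀ ≤ y → y ≤ Y → A * y ≤ ((rough z ⌊y⌋₊).card : ℝ)) : ∀ k : ℕ, ∀ y : ℝ, 0 ≤ y →
    y ≤ Y → (∀ j < k, Y₀ ≤ y / (p : ℝ) ^ j) →
      A * y * (1 - ((p : ℝ) ^ k)⁻¹) / (1 - 1 / (p : ℝ)) ≤ (R (erz z p) 0 ⌊y⌋₊ : ℝ) := by
  have hp2 : (2 : ℝ) ≤ p := by exact_mod_cast (prime_of_mem hp).two_le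
  have hp0 : (0 : ℝ) < p := by linarith
  have hp1 : (p : ℝ) - 1 ≠ 0 := by
    intro h
    linarith
  intro k
  induction k with
  | zero =>
    intro y hy _ _
    simp
  | succ k ih =>
    intro y hy hyY hj
    have h1 := hA y (by have := hj 0 (by omega); simpa using this) hyY
    have h2 : y / p ≤ y := div_le_self hy (by linarith)
    have h3 := ih (y / p) (by positivity) (h2.trans hyY) (by
      intro j hjk
      have := hj (j + 1) (by omega)
      rw [div_div, ← pow_succ']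
      exact this)
    rw [R_rec_real hp]
    refine le_trans (le_of_eq ?_) (add_le_add h1 h3)
    field_simp
    ring

/-- the first power of `p` above `T` -/
lemma exists_pow {p : ℕ} (hp : 2 ≤ p) {T : ℝ} (hT : 1 ≤ T) : ∃ k : ℕ, T < (p : ℝ) ^ k ∧
    ∀ j < k, (p : ℝ) ^ j ≤ T := by
  classical
  have hp1 : (1 : ℝ) < p := by exact_mod_cast hp
  have hex : ∃ k : ℕ, T < (p : ℝ) ^ k := pow_unbounded_of_one_lt T hp1
  refine ⟨Nat.find hex, Nat.find_spec hex, fun j hj => ?_⟩
  exact not_lt.1 (Nat.find_min hex hj)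

/-- **Buchstab's function for the sieve with one prime erased.** -/
theorem sieve_buchstab {u : ℝ} (hu : 1 < u) {κ : ℝ} (hκ : 0 < κ) : ∃ δ : ℝ, 0 < δ ∧
    ∀ᶠ z : ℕ in atTop, ∀ y : ℝ, (z : ℝ) ^ (u - δ) ≤ y → y ≤ (z : ℝ) ^ (u + δ) →
      ∀ p ∈ Pool.Gal99.pr z, |(R (erz z p) 0 ⌊y⌋₊ : ℝ) / (y * V (erz z p)) -
        Real.exp Real.eulerMascheroniConstant * buchstab u| ≤ κ := by
  set g : ℝ := Real.exp Real.eulerMascheroniConstant with hg
  have hg0 : 0 < g := Real.exp_pos _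
  obtain ⟨δ, hδ0, hδ1, hδu, hδκ⟩ : ∃ δ : ℝ, 0 < δ ∧ δ ≤ 1 / 16 ∧ 4 * δ ≤ u - 1 ∧
      5 * δ * g < κ := by
    refine ⟨min (1 / 16) (min ((u - 1) / 4) (κ / (10 * g))), ?_, min_le_left _ _, ?_, ?_⟩
    · have : 0 < u - 1 := by linarith
      positivity
    · have h1 : min (1 / 16) (min ((u - 1) / 4) (κ / (10 * g))) ≤ (u - 1) / 4 :=
        (min_le_right _ _).trans (min_le_left _ _)
      linarith
    · have h1 : min (1 / 16) (min ((u - 1) / 4) (κ / (10 * g))) ≤ κ / (10 * g) :=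
        (min_le_right _ _).trans (min_le_right _ _)
      have h2 : 5 * (κ / (10 * g)) * g = κ / 2 := by field_simp; norm_num
      have h3 := mul_le_mul_of_nonneg_right (mul_le_mul_of_nonneg_left h1
        (show (0 : ℝ) ≤ 5 by norm_num)) hg0.le
      linarith
  refine ⟨δ, hδ0, ?_⟩
  obtain ⟨z₁, hz₁⟩ := rough_upper_gen isBuchstab_buchstab (U := u + δ) (ε := δ) hδ0
  obtain ⟨z₂, hz₂⟩ := rough_lower_gen isBuchstab_buchstab (U := u + δ) (ε := δ) hδ0
  have hzz : Tendsto (fun z : ℕ => (z : ℝ)) atTop atTop := tendsto_natCast_atTop_atTop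
  -- limits
  have hmert : Tendsto (fun z : ℕ => Pool.Gal99.V z * Real.log z) atTop (𝓝 g⁻¹) := by
    have := mertens_third
    rw [hg, ← Real.exp_neg]
    exact this
  have hV1 : Tendsto (fun z : ℕ => (buchstab u + 4 * δ) / (Pool.Gal99.V z * Real.log z)) atTop
      (𝓝 ((buchstab u + 4 * δ) / g⁻¹)) := tendsto_const_nhds.div hmert (by positivity)
  have hV2 : Tendsto (fun z : ℕ => (buchstab u - 5 * δ) / (Pool.Gal99.V z * Real.log z)) atTop
      (𝓝 ((buchstab u - 5 * δ) / g⁻¹)) := tendsto_const_nhds.div hmert (by positivity)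
  rw [div_inv_eq_mul] at hV1 hV2
  have e1 := hV1.eventually_lt_const (show (buchstab u + 4 * δ) * g < g * buchstab u + κ by
    have : 0 < δ * g := by positivity
    linarith)
  have e2 := hV2.eventually_const_lt (show g * buchstab u - κ < (buchstab u - 5 * δ) * g by
    linarith)
  have e3 : ∀ᶠ z : ℕ in atTop, Real.log z / (z : ℝ) ^ δ ≤ δ := by
    have h1 : Tendsto (fun x : ℝ => Real.log x / x ^ δ) atTop (𝓝 0) :=
      (isLittleO_log_rpow_atTop hδ0).tendsto_div_nhds_zero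
    exact (h1.comp hzz).eventually_le_const hδ0
  have e4 : ∀ᶠ z : ℕ in atTop, 4 / δ ≤ (z : ℝ) ^ δ :=
    ((tendsto_rpow_atTop hδ0).comp hzz).eventually_ge_atTop _
  filter_upwards [e1, e2, e3, e4, eventually_ge_atTop z₁, eventually_ge_atTop z₂,
    eventually_ge_atTop 3, hmert.eventually_const_lt (show (0 : ℝ) < g⁻¹ by positivity)]
    with z f1 f2 f3 f4 f5 f6 f7 f8 y hy1 hy2 p hp
  have hz3 : (3 : ℝ) ≤ z := by exact_mod_cast f7
  have hz0 : (0 : ℝ) < z := by linarith
  have hlog : 0 < Real.log (z : ℝ) := Real.log_pos (by linarith)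
  have hV0 : 0 < Pool.Gal99.V z := by
    by_contra hcon
    push Not at hcon
    have := mul_nonpos_of_nonpos_of_nonneg hcon hlog.le
    linarith
  have hpp := prime_of_mem hp
  have hp2 : (2 : ℝ) ≤ p := by exact_mod_cast hpp.two_le
  have hp0 : (0 : ℝ) < p := by linarith
  have hpinv : 1 / (p : ℝ) ≤ 1 / 2 := by
    apply div_le_div_of_nonneg_left zero_le_one (by norm_num) hp2
  set c : ℝ := 1 - 1 / (p : ℝ) with hc
  have hc0 : 0 < c := by linarith
  have hc1 : c ≤ 1 := by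
    have : 0 ≤ 1 / (p : ℝ) := by positivity
    linarith
  have hVe : V (erz z p) = Pool.Gal99.V z / c := by
    rw [V_erz hp, ← hc]
    exact (mul_div_cancel_left₀ _ hc0.ne').symm
  set T : ℝ := (z : ℝ) ^ δ with hT
  have hT1 : 1 ≤ T := Real.one_le_rpow (by linarith) hδ0.le
  have hT0 : 0 < T := by linarith
  have hinvT : 1 / T ≤ δ / 4 := by
    rw [div_le_iff₀ hδ0] at f4
    rw [div_le_iff₀ hT0]
    linarith
  have hy0 : 0 < y := (Real.rpow_pos_of_pos hz0 _).trans_le hy1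
  have hω0 : 1 / 2 ≤ buchstab u := buchstab_ge hu.le
  have hω1 : buchstab u ≤ 1 := buchstab_le hu.le
  -- the range `z^{u-2δ} ≤ y' ≤ z^{u+δ}`
  set Y₀ : ℝ := (z : ℝ) ^ (u - 2 * δ) with hY₀
  have hY0z : (z : ℝ) * (4 / δ) ≤ Y₀ := by
    have h1 : (z : ℝ) ^ (1 + δ) ≤ Y₀ := by
      apply Real.rpow_le_rpow_of_exponent_le (by linarith)
      linarith
    have h2 : (z : ℝ) ^ (1 + δ) = z * T := by
      rw [Real.rpow_add hz0, Real.rpow_one]
    rw [h2] at h1
    exact (mul_le_mul_of_nonneg_left f4 hz0.le).trans h1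
  have hzY0 : (z : ℝ) ≤ Y₀ := by
    refine le_trans ?_ hY0z
    apply le_mul_of_one_le_right hz0.le
    rw [le_div_iff₀ hδ0]
    linarith
  have hrange : ∀ y' : ℝ, Y₀ ≤ y' → y' ≤ (z : ℝ) ^ (u + δ) →
      |buchstab (Real.log y' / Real.log z) - buchstab u| ≤ 2 * δ := by
    intro y' h1 h2
    have hy'0 : 0 < y' := by linarith
    have h3 : (u - 2 * δ) * Real.log z ≤ Real.log y' := by
      rw [← Real.log_rpow hz0]
      exact Real.log_le_log (Real.rpow_pos_of_pos hz0 _) h1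
    have h4 : Real.log y' ≤ (u + δ) * Real.log z := by
      rw [← Real.log_rpow hz0]
      exact Real.log_le_log hy'0 h2
    have h5 : u - 2 * δ ≤ Real.log y' / Real.log z := by rwa [le_div_iff₀ hlog]
    have h6 : Real.log y' / Real.log z ≤ u + δ := by rwa [div_le_iff₀ hlog]
    refine (abs_buchstab_sub_le (by linarith) hu.le).trans ?_
    rw [abs_le]
    constructor <;> linarith
  have hup : ∀ y' : ℝ, Y₀ ≤ y' → y' ≤ (z : ℝ) ^ (u + δ) →
      ((rough z ⌊y'⌋₊).card : ℝ) ≤ ((buchstab u + 3 * δ) / Real.log z) * y' := by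
    intro y' h1 h2
    have h3 := hz₁ z f5 y' (hzY0.trans h1) h2
    have h4 := (abs_le.1 (hrange y' h1 h2)).2
    refine h3.trans ?_
    rw [div_mul_eq_mul_div]
    apply div_le_div_of_nonneg_right _ hlog.le
    apply mul_le_mul_of_nonneg_right _ (by linarith)
    linarith
  have hlo : ∀ y' : ℝ, Y₀ ≤ y' → y' ≤ (z : ℝ) ^ (u + δ) →
      ((buchstab u - 4 * δ) / Real.log z) * y' ≤ ((rough z ⌊y'⌋₊).card : ℝ) := by
    intro y' h1 h2
    have h3 := hz₂ z f6 y' (hzY0.trans h1) h2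
    have h4 := (abs_le.1 (hrange y' h1 h2)).1
    have hy'0 : 0 < y' := by linarith
    have h5 : 2 * (z : ℝ) ≤ δ * y' := by
      have h6 : (z : ℝ) * (4 / δ) ≤ y' := hY0z.trans h1
      have h7 : (z : ℝ) * (4 / δ) * δ ≤ y' * δ := mul_le_mul_of_nonneg_right h6 hδ0.le
      have h8 : (z : ℝ) * (4 / δ) * δ = 4 * z := by field_simp
      linarith
    have h6 : 2 * (z : ℝ) / Real.log z ≤ δ * y' / Real.log z :=
      div_le_div_of_nonneg_right h5 hlog.le
    have h7 : ((buchstab u - 4 * δ) / Real.log z) * y' + δ * y' / Real.log z ≤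
        (buchstab (Real.log y' / Real.log z) - δ) * y' / Real.log z := by
      have h8 : ((buchstab u - 4 * δ) / Real.log z) * y' + δ * y' / Real.log z =
          (buchstab u - 3 * δ) * y' / Real.log z := by
        field_simp
        ring
      rw [h8]
      apply div_le_div_of_nonneg_right _ hlog.le
      apply mul_le_mul_of_nonneg_right _ (by linarith)
      linarith
    linarith
  obtain ⟨k, hk1, hk2⟩ := exists_pow hpp.two_le hT1
  have hkj : ∀ j < k, Y₀ ≤ y / (p : ℝ) ^ j := by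
    intro j hj
    have h1 := hk2 j hj
    rw [le_div_iff₀ (by positivity)]
    calc Y₀ * (p : ℝ) ^ j ≤ Y₀ * T := mul_le_mul_of_nonneg_left h1 (by positivity)
      _ = (z : ℝ) ^ (u - δ) := by
          rw [hY₀, hT, ← Real.rpow_add hz0]
          congr 1
          ring
      _ ≤ y := hy1
  have hU := iter_upper hp hup k y hy0.le hy2 hkj
  have hL := iter_lower hp hlo k y hy0.le hy2 hkj
  have hpk0 : (0 : ℝ) < (p : ℝ) ^ k := by positivity
  have hpk : ((p : ℝ) ^ k)⁻¹ ≤ 1 / T := by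
    rw [one_div]
    exact inv_anti₀ hT0 hk1.le
  have hpkpos : 0 < ((p : ℝ) ^ k)⁻¹ := by positivity
  set Rr : ℝ := (R (erz z p) 0 ⌊y⌋₊ : ℝ) with hRr
  have hVl : 0 < Pool.Gal99.V z * Real.log z := f8
  rw [hVe]
  -- upper bound
  have h1 : Rr / (y * (Pool.Gal99.V z / c)) ≤
      (buchstab u + 4 * δ) / (Pool.Gal99.V z * Real.log z) := by
    rw [div_le_div_iff₀ (by positivity) hVl]
    have h2 : Rr ≤ (buchstab u + 4 * δ) / Real.log z * y / c := by
      have h3 : (buchstab u + 3 * δ) / Real.log z * y * (1 - ((p : ℝ) ^ k)⁻¹) / c ≤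
          (buchstab u + 3 * δ) / Real.log z * y / c := by
        apply div_le_div_of_nonneg_right _ hc0.le
        apply mul_le_of_le_one_right (by positivity)
        linarith
      have h4 : y / (p : ℝ) ^ k ≤ δ / Real.log z * y / c := by
        have h5 : y / (p : ℝ) ^ k ≤ y / T := div_le_div_of_nonneg_left hy0.le hT0 hk1.le
        have h6 : 1 / T ≤ δ / Real.log z := by
          rw [div_le_div_iff₀ hT0 hlog, one_mul]
          rwa [div_le_iff₀ hT0] at f3
        calc y / (p : ℝ) ^ k ≤ y / T := h5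
          _ = (1 / T) * y := by ring
          _ ≤ δ / Real.log z * y := mul_le_mul_of_nonneg_right h6 hy0.le
          _ ≤ δ / Real.log z * y / c := by
              rw [le_div_iff₀ hc0]
              exact mul_le_of_le_one_right (by positivity) hc1
      calc Rr ≤ _ := hU
        _ ≤ (buchstab u + 3 * δ) / Real.log z * y / c + δ / Real.log z * y / c :=
            add_le_add h3 h4
        _ = (buchstab u + 4 * δ) / Real.log z * y / c := by ring
    calc Rr * (Pool.Gal99.V z * Real.log z)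
        ≤ ((buchstab u + 4 * δ) / Real.log z * y / c) * (Pool.Gal99.V z * Real.log z) :=
          mul_le_mul_of_nonneg_right h2 hVl.le
      _ = (buchstab u + 4 * δ) * (y * (Pool.Gal99.V z / c)) := by
          field_simp
  have h2 : (buchstab u - 5 * δ) / (Pool.Gal99.V z * Real.log z) ≤
      Rr / (y * (Pool.Gal99.V z / c)) := by
    rw [div_le_div_iff₀ hVl (by positivity)]
    have h3 : (buchstab u - 5 * δ) / Real.log z * y / c ≤ Rr := by
      refine le_trans ?_ hL
      apply div_le_div_of_nonneg_right _ hc0.le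
      have h4 : (buchstab u - 4 * δ) / Real.log z * y * (1 - δ) ≤
          (buchstab u - 4 * δ) / Real.log z * y * (1 - ((p : ℝ) ^ k)⁻¹) := by
        apply mul_le_mul_of_nonneg_left
        · linarith
        · have : 0 ≤ buchstab u - 4 * δ := by linarith
          positivity
      refine le_trans ?_ h4
      have h5 : (buchstab u - 4 * δ) / Real.log z * y * (1 - δ) =
          ((buchstab u - 4 * δ) * (1 - δ)) / Real.log z * y := by ring
      rw [h5]
      apply mul_le_mul_of_nonneg_right _ hy0.le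
      apply div_le_div_of_nonneg_right _ hlog.le
      nlinarith
    calc (buchstab u - 5 * δ) * (y * (Pool.Gal99.V z / c))
        = ((buchstab u - 5 * δ) / Real.log z * y / c) * (Pool.Gal99.V z * Real.log z) := by
          field_simp
      _ ≤ Rr * (Pool.Gal99.V z * Real.log z) := mul_le_mul_of_nonneg_right h3 hVl.le
  rw [abs_le]
  constructor <;> linarith

end Pool.Agent.LibEnd63
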