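import Pool.Agent.LibEnd63.Rows
import Pool.Agent.LibEnd63.Sieve
import Pool.Agent.LibEnd63.Defs
import Pool.Agent.LibH.Fixed

/-!
Relative deviations of fixed size of the number of primes in the windows `(m, m + c (log m)^λ]`.
-/

namespace Pool.Agent.LibEnd63

open Filter Topology MeasureTheory
open Pool.Agent.LibMaier Pool.Agent.LibG2 Pool.Agent.LibH

/-- the sieve level `⌊h^(1/u)⌋` -/
noncomputable def zu (u : ℝ) (h : ℕ) : ℕ := ⌊(h : ℝ) ^ (1 / u)⌋₊

lemma zu_tendsto {u : ℝ} (hu : 0 < u) : Tendsto (zu u) atTop atTop := by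
  have h1 : Tendsto (fun h : ℕ => (h : ℝ) ^ (1 / u)) atTop atTop :=
    (tendsto_rpow_atTop (by positivity)).comp tendsto_natCast_atTop_atTop
  exact tendsto_nat_floor_atTop.comp h1

lemma zu_le {u : ℝ} (h : ℕ) : (zu u h : ℝ) ≤ (h : ℝ) ^ (1 / u) :=
  Nat.floor_le (by positivity)

/-- `z^(u-δ) ≤ h ≤ z^(u+δ)` -/
lemma zu_range {u δ : ℝ} (hu : 0 < u) (hδ : 0 < δ) : ∀ᶠ h : ℕ in atTop,
    (zu u h : ℝ) ^ (u - δ) ≤ h ∧ (h : ℝ) ≤ (zu u h : ℝ) ^ (u + δ) := by
  have h1 : Tendsto (fun h : ℕ => (zu u h : ℝ) ^ δ) atTop atTop :=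
    (tendsto_rpow_atTop hδ).comp (tendsto_natCast_atTop_atTop.comp (zu_tendsto hu))
  filter_upwards [h1.eventually_ge_atTop ((2 : ℝ) ^ u), (zu_tendsto hu).eventually_ge_atTop 1]
    with h h2 h3
  have hz1 : (1 : ℝ) ≤ zu u h := by exact_mod_cast h3
  have hz0 : (0 : ℝ) < zu u h := by linarith
  have hpow : ((h : ℝ) ^ (1 / u)) ^ u = h := by
    rw [← Real.rpow_mul (Nat.cast_nonneg _), one_div_mul_cancel hu.ne', Real.rpow_one]
  constructor
  · calc (zu u h : ℝ) ^ (u - δ) ≤ (zu u h : ℝ) ^ u :=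
          Real.rpow_le_rpow_of_exponent_le hz1 (by linarith)
      _ ≤ ((h : ℝ) ^ (1 / u)) ^ u := Real.rpow_le_rpow hz0.le (zu_le h) hu.le
      _ = h := hpow
  · have h4 : (h : ℝ) ^ (1 / u) ≤ 2 * zu u h := by
      have : (h : ℝ) ^ (1 / u) < zu u h + 1 := Nat.lt_floor_add_one _
      linarith
    calc (h : ℝ) = ((h : ℝ) ^ (1 / u)) ^ u := hpow.symm
      _ ≤ (2 * (zu u h : ℝ)) ^ u := Real.rpow_le_rpow (by positivity) h4 hu.le
      _ = (2 : ℝ) ^ u * (zu u h : ℝ) ^ u := Real.mul_rpow (by norm_num) hz0.le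
      _ ≤ (zu u h : ℝ) ^ δ * (zu u h : ℝ) ^ u := by gcongr
      _ = (zu u h : ℝ) ^ (u + δ) := by
          rw [← Real.rpow_add hz0]
          congr 1
          ring

/-- **Windows of a fixed length `h`.** -/
theorem fixed0 {u : ℝ} (hu : 1 < u) {B : ℝ} (hB : 1 < B) {a b : ℝ} (ha : 0 ≤ a) (hab : a < b) :
    ∃ (H₀ : ℕ) (U₀ : ℝ), ∀ h : ℕ, H₀ ≤ h → ∀ U : ℝ, U₀ ≤ U → (h : ℝ) ^ (1 / u) ≤ U →
      (h : ℝ) ≤ Real.exp U → ∀ N : ℕ, U ^ B ≤ Real.log N → Real.log N ≤ Real.exp U →
        (b < Real.exp Real.eulerMascheroniConstant * buchstab u →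
          Real.exp (-(12 * U)) * N ≤ (((Finset.Icc 1 N).filter (fun n =>
            a * (h / Real.log N) ≤ (pw n h : ℝ) ∧
              Real.exp (-(8 * U)) * N ≤ (n : ℝ))).card : ℝ)) ∧
        (Real.exp Real.eulerMascheroniConstant * buchstab u < a →
          Real.exp (-(12 * U)) * N ≤ (((Finset.Icc 1 N).filter (fun n =>
            (pw n h : ℝ) ≤ b * (h / Real.log N) ∧
              Real.exp (-(8 * U)) * N ≤ (n : ℝ))).card : ℝ)) := by
  have hu0 : 0 < u := by linarith
  set g : ℝ := Real.exp Real.eulerMascheroniConstant * buchstab u with hg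
  obtain ⟨U₀, hcore⟩ := core_freq0 hB ha hab
  obtain ⟨κ, hκ0, hκb, hκa⟩ : ∃ κ : ℝ, 0 < κ ∧ (b < g → κ ≤ g - b) ∧ (g < a → κ ≤ a - g) := by
    rcases lt_or_ge b g with h1 | h1
    · exact ⟨g - b, by linarith, fun _ => le_rfl, fun h2 => by linarith⟩
    · rcases lt_or_ge g a with h2 | h2
      · exact ⟨a - g, by linarith, fun h3 => by linarith, fun _ => le_rfl⟩
      · exact ⟨1, one_pos, fun h3 => by linarith, fun h3 => by linarith⟩
  obtain ⟨δ, hδ0, hsieve⟩ := sieve_buchstab hu hκ0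
  obtain ⟨H₁, hH₁⟩ := eventually_atTop.1 (((zu_tendsto hu0).eventually hsieve).and
    ((zu_range hu0 hδ0).and ((zu_tendsto hu0).eventually_ge_atTop 2)))
  refine ⟨max H₁ 1, U₀, ?_⟩
  intro h hh U hU hzU hhU N hN1 hN2
  have hh1 : 1 ≤ h := (le_max_right _ _).trans hh
  have hhR : (1 : ℝ) ≤ h := by exact_mod_cast hh1
  have hh0 : (0 : ℝ) < h := by linarith
  obtain ⟨hs1, ⟨hr1, hr2⟩, hz2⟩ := hH₁ h ((le_max_left _ _).trans hh)
  have hzle : (zu u h : ℝ) ≤ U := (zu_le h).trans hzU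
  obtain ⟨p, hp, hpd, hcl⟩ := hcore U hU (zu u h) hz2 hzle
  have hpmem : p ∈ Pool.Gal99.pr (zu u h) := by
    unfold Pool.Gal99.pr
    rw [Finset.mem_filter, Finset.mem_range]
    have := (hp.dvd_primorial_iff).1 hpd
    exact ⟨by omega, hp⟩
  have hsv := abs_le.1 (hs1 h hr1 hr2 p hpmem)
  set s := PS.erz (zu u h) p with hs
  set q := PS.Pz s with hq
  have hqp : q * p = primorial (zu u h) := by
    have h1 := PS.Pz_erz hpmem
    rw [Pz_eq_primorial] at h1
    rw [h1, mul_comm]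
  have hq0 : 0 < q := Nat.pos_of_ne_zero (PS.D1_sqf s).ne_zero
  have hqR : (0 : ℝ) < q := by exact_mod_cast hq0
  have hφ : (0 : ℝ) < q.totient := by exact_mod_cast Nat.totient_pos.2 hq0
  have hVq : PS.V s = (q.totient : ℝ) / q := V_eq s
  have her : (q : ℝ) / q.totient * (RQs q 0 h).card =
      ((PS.R s 0 ⌊(h : ℝ)⌋₊ : ℝ) / (h * PS.V s)) * h := by
    rw [hVq]
    have h2 : (PS.R s 0 ⌊(h : ℝ)⌋₊ : ℝ) = (RQs q 0 h).card := by
      rw [Nat.floor_natCast]
      rfl
    rw [h2]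
    field_simp
  obtain ⟨c1, c2⟩ := hcl N hN1 hN2 q 0 h hqp hq0 hh1 hhU
  constructor
  · intro hbg
    apply c1
    rw [her]
    apply mul_le_mul_of_nonneg_right _ hh0.le
    have := hκb hbg
    linarith
  · intro hga
    apply c2
    rw [her]
    apply mul_le_mul_of_nonneg_right _ hh0.le
    have := hκa hga
    linarith

/-- the conditions on `L = log X` -/
lemma conds0 {lam c u β E κ₁ κ₂ : ℝ} (U₀ H₀ : ℝ) (hlam : 1 < lam) (hc : 0 < c) (hu : 0 < u)
    (hβ0 : 0 < β) (hβ1 : β < 1) (hβu : lam / u < β) (hβE : β < E) (hκ1 : 0 < κ₁) (hκ2 : 0 < κ₂) :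
    ∀ᶠ L : ℝ in atTop, 1 ≤ L ∧ 1 ≤ Real.log L ∧ U₀ ≤ L ^ β ∧ L ≤ Real.exp (L ^ β) ∧
      c * L ^ lam ≤ Real.exp (L ^ β) ∧ (c * L ^ lam) ^ (1 / u) ≤ L ^ β ∧
      12 * L ^ β ≤ L ^ E ∧ lam * (8 * L ^ β / L) ≤ κ₁ ∧ 1 / (c * L ^ (lam - 1)) ≤ κ₂ ∧
      H₀ + 1 ≤ c * (L / 2) ^ lam ∧ 3 ≤ Real.exp (L / 2) := by
  have hlogt : Tendsto (fun L : ℝ => Real.log L) atTop atTop := Real.tendsto_log_atTop
  have hpowt : Tendsto (fun L : ℝ => L ^ β) atTop atTop := tendsto_rpow_atTop hβ0
  have e2 : ∀ᶠ L : ℝ in atTop, |Real.log c| + lam * Real.log L + Real.log L ≤ L ^ β := by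
    have h1 : Tendsto (fun L : ℝ => |Real.log c| / L ^ β + (lam + 1) * (Real.log L / L ^ β)) atTop
        (𝓝 (0 + (lam + 1) * 0)) :=
      (tendsto_const_nhds.div_atTop hpowt).add
        (((isLittleO_log_rpow_atTop hβ0).tendsto_div_nhds_zero).const_mul _)
    rw [mul_zero, add_zero] at h1
    filter_upwards [h1.eventually_le_const one_pos, eventually_gt_atTop 0] with L h2 h3
    have h4 : 0 < L ^ β := by positivity
    have h5 : |Real.log c| / L ^ β + (lam + 1) * (Real.log L / L ^ β) =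
        (|Real.log c| + lam * Real.log L + Real.log L) / L ^ β := by
      field_simp
      ring
    rw [h5, div_le_one h4] at h2
    exact h2
  have e3 : ∀ᶠ L : ℝ in atTop, (c * L ^ lam) ^ (1 / u) ≤ L ^ β := by
    have h1 : Tendsto (fun x : ℝ => x ^ (β - lam / u)) atTop atTop :=
      tendsto_rpow_atTop (by linarith)
    filter_upwards [h1.eventually_ge_atTop (c ^ (1 / u)), eventually_gt_atTop 0] with L h2 h3
    have h4 : L ^ β = L ^ (β - lam / u) * L ^ (lam / u) := by
      rw [← Real.rpow_add h3]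
      congr 1
      ring
    rw [h4, Real.mul_rpow hc.le (by positivity), ← Real.rpow_mul h3.le, mul_one_div]
    exact mul_le_mul_of_nonneg_right h2 (by positivity)
  have e6 : ∀ᶠ x : ℝ in atTop, 12 * x ^ β ≤ x ^ E := by
    have h1 : Tendsto (fun x : ℝ => x ^ (E - β)) atTop atTop := tendsto_rpow_atTop (by linarith)
    filter_upwards [h1.eventually_ge_atTop 12, eventually_gt_atTop 0] with x h2 h3
    have h4 : x ^ E = x ^ (E - β) * x ^ β := by
      rw [← Real.rpow_add h3]
      congr 1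
      ring
    rw [h4]
    exact mul_le_mul_of_nonneg_right h2 (by positivity)
  have e7 : ∀ᶠ L : ℝ in atTop, lam * (8 * L ^ β / L) ≤ κ₁ := by
    have h1 : Tendsto (fun x : ℝ => (8 * lam) * x ^ (-(1 - β))) atTop (𝓝 ((8 * lam) * 0)) :=
      (tendsto_rpow_neg_atTop (by linarith)).const_mul _
    rw [mul_zero] at h1
    filter_upwards [h1.eventually_le_const hκ1, eventually_gt_atTop 0] with L h2 h3
    refine le_trans (le_of_eq ?_) h2
    have h4 : L ^ (-(1 - β)) = L ^ β / L := by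
      rw [show -(1 - β) = β - 1 by ring, Real.rpow_sub h3, Real.rpow_one]
    rw [h4]
    ring
  have e7' : ∀ᶠ L : ℝ in atTop, 1 / (c * L ^ (lam - 1)) ≤ κ₂ := by
    have h1 : Tendsto (fun x : ℝ => c * x ^ (lam - 1)) atTop atTop :=
      (tendsto_rpow_atTop (by linarith)).const_mul_atTop hc
    have h2 : Tendsto (fun x : ℝ => 1 / (c * x ^ (lam - 1))) atTop (𝓝 0) :=
      tendsto_const_nhds.div_atTop h1
    exact h2.eventually_le_const hκ2
  have e8 : Tendsto (fun L : ℝ => c * (L / 2) ^ lam) atTop atTop :=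
    ((tendsto_rpow_atTop (by linarith)).comp (tendsto_id.atTop_div_const two_pos)).const_mul_atTop
      hc
  have e9 : Tendsto (fun L : ℝ => Real.exp (L / 2)) atTop atTop :=
    Real.tendsto_exp_atTop.comp (tendsto_id.atTop_div_const two_pos)
  filter_upwards [eventually_ge_atTop 1, hlogt.eventually_ge_atTop 1, hpowt.eventually_ge_atTop U₀,
    e2, e3, e6, e7, e7', e8.eventually_ge_atTop (H₀ + 1), e9.eventually_ge_atTop 3]
    with L h1 h2 h3 h5 h6 h7 h8 h9 h11 h12
  have hL0 : 0 < L := by linarith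
  refine ⟨h1, h2, h3, ?_, ?_, h6, h7, h8, h9, h11, h12⟩
  · nth_rewrite 1 [← Real.exp_log hL0]
    apply Real.exp_le_exp.2
    have : 0 ≤ |Real.log c| + lam * Real.log L := by positivity
    linarith
  · have h13 : c * L ^ lam = Real.exp (Real.log c + lam * Real.log L) := by
      rw [Real.exp_add, Real.exp_log hc, Real.rpow_def_of_pos hL0]
      ring_nf
    rw [h13]
    apply Real.exp_le_exp.2
    have := le_abs_self (Real.log c)
    linarith

/-- **Relative deviations of fixed size.** -/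
theorem primes_rel {lam c u r e : ℝ} (hlam : 1 < lam) (hc : 0 < c) (hu : lam < u) (hr : 0 ≤ r)
    (he : 0 < e) {s : ℝ} (hs : s = 1 ∨ s = -1)
    (hru : r < s * (Real.exp Real.eulerMascheroniConstant * buchstab u - 1)) :
    ∀ᶠ X : ℕ in atTop, (X : ℝ) * Real.exp (-Real.log X ^ (lam / u + e)) ≤
      (relCount {p : ℕ | p.Prime} lam c r s X : ℝ) := by
  set g : ℝ := Real.exp Real.eulerMascheroniConstant * buchstab u with hg
  have hl1 : 0 < lam - 1 := by linarith
  have hu0 : 0 < u := by linarith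
  have hu1 : 1 < u := by linarith
  have hlu : lam / u < 1 := by
    rw [div_lt_one hu0]
    exact hu
  have hlu0 : 0 < lam / u := by positivity
  obtain ⟨β, hβu, hβ1, hβE⟩ : ∃ β, lam / u < β ∧ β < 1 ∧ β < lam / u + e := by
    obtain ⟨β, h1, h2⟩ := exists_between (lt_min hlu (show lam / u < lam / u + e by linarith))
    exact ⟨β, h1, h2.trans_le (min_le_left _ _), h2.trans_le (min_le_right _ _)⟩
  have hβ0 : 0 < β := by linarith
  have hB : 1 < 1 / β := by
    rw [lt_div_iff₀ hβ0]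
    linarith
  have hLN : Tendsto (fun N : ℕ => Real.log (N : ℝ)) atTop atTop :=
    Real.tendsto_log_atTop.comp tendsto_natCast_atTop_atTop
  -- parameters of the two signs
  have hpar : ∃ a b κ : ℝ, 0 ≤ a ∧ a < b ∧ 0 < κ ∧ κ ≤ 1 / 2 ∧
      ((s = 1 ∧ b < g ∧ 1 + r ≤ a * (1 - 2 * κ)) ∨
        (s = -1 ∧ g < a ∧ b ≤ (1 - r) * (1 - κ))) := by
    rcases hs with rfl | rfl
    · rw [one_mul] at hru
      obtain ⟨b, hb1, hb2⟩ := exists_between (show 1 + r < g by linarith)
      obtain ⟨a, ha1, ha2⟩ := exists_between hb1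
      have ha0 : 0 < a := by linarith
      refine ⟨a, b, min (1 / 2) ((a - (1 + r)) / (2 * a)), ha0.le, ha2, ?_, min_le_left _ _,
        Or.inl ⟨rfl, hb2, ?_⟩⟩
      · have : 0 < a - (1 + r) := by linarith
        positivity
      · have h1 : min (1 / 2) ((a - (1 + r)) / (2 * a)) ≤ (a - (1 + r)) / (2 * a) :=
          min_le_right _ _
        have h2 : a * (2 * ((a - (1 + r)) / (2 * a))) = a - (1 + r) := by field_simp
        have h3 := mul_le_mul_of_nonneg_left (mul_le_mul_of_nonneg_left h1 zero_le_two) ha0.le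
        linarith
    · have hg1 : g < 1 - r := by linarith
      have hg0 : 0 < g := mul_pos (Real.exp_pos _)
        (lt_of_lt_of_le (by norm_num) (buchstab_ge hu1.le))
      obtain ⟨a, ha1, ha2⟩ := exists_between hg1
      obtain ⟨b, hb1, hb2⟩ := exists_between ha2
      have hr1 : 0 < 1 - r := by linarith
      refine ⟨a, b, min (1 / 2) ((1 - r - b) / (1 - r)), by linarith, hb1, ?_, min_le_left _ _,
        Or.inr ⟨rfl, ha1, ?_⟩⟩
      · have : 0 < 1 - r - b := by linarith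
        positivity
      · have h1 : min (1 / 2) ((1 - r - b) / (1 - r)) ≤ (1 - r - b) / (1 - r) :=
          min_le_right _ _
        have h2 : (1 - r) * ((1 - r - b) / (1 - r)) = 1 - r - b := by field_simp
        have h3 := mul_le_mul_of_nonneg_left h1 hr1.le
        linarith
  obtain ⟨a, b, κ, ha, hab, hκ0, hκ2, hcase⟩ := hpar
  obtain ⟨H₀, U₀, hfix⟩ := fixed0 hu1 hB ha hab
  have hcond := hLN.eventually (conds0 (u := u) (β := β) (E := lam / u + e) U₀ H₀ hlam hc hu0 hβ0
    hβ1 hβu hβE hκ0 hκ0)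
  filter_upwards [hcond, eventually_ge_atTop 3] with N hN hN3
  obtain ⟨c1, c2, c3, c5, c6, c7, c10, c9, c8, c12, c13⟩ := hN
  obtain ⟨L, hL⟩ : ∃ L, L = Real.log (N : ℝ) := ⟨_, rfl⟩
  rw [← hL] at c1 c2 c3 c5 c6 c7 c8 c9 c10 c12 c13 ⊢
  obtain ⟨U, hU⟩ : ∃ U, U = L ^ β := ⟨_, rfl⟩
  rw [← hU] at c3 c5 c6 c7 c9 c10
  have hL0 : 0 < L := by linarith
  have hU0 : 0 < U := by
    rw [hU]
    positivity
  have hN0 : (0 : ℝ) < N := by
    have : 0 < N := by omega
    exact_mod_cast this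
  have hNexp : (N : ℝ) = Real.exp L := by rw [hL, Real.exp_log hN0]
  have hUB : U ^ (1 / β) ≤ Real.log N := by
    rw [hU, ← Real.rpow_mul hL0.le, mul_one_div_cancel hβ0.ne', Real.rpow_one, hL]
  set M : ℝ := c * L ^ (lam - 1) with hM
  have hM0 : 0 < M := by positivity
  have hML : M * L = c * L ^ lam := by
    rw [hM, mul_assoc, ← Real.rpow_add_one hL0.ne']
    congr 2
    ring
  have hUL : 8 * U / L ≤ 1 / 2 := by
    have h1 : 8 * U / L ≤ lam * (8 * U / L) := by
      have : 0 ≤ 8 * U / L := by positivity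
      nlinarith
    linarith
  have hUL' : 8 * U ≤ L / 2 := by
    rw [div_le_iff₀ hL0] at hUL
    linarith
  -- `(1 - 8U/L)^λ ≥ 1 - 8 λ U/L`
  have hbern : 1 - κ ≤ (1 - 8 * U / L) ^ lam := by
    have h1 := one_add_mul_self_le_rpow_one_add (s := -(8 * U / L)) (by linarith) hlam.le
    have h2 : 1 + lam * -(8 * U / L) = 1 - lam * (8 * U / L) := by ring
    have h3 : 1 + -(8 * U / L) = 1 - 8 * U / L := by ring
    rw [h2, h3] at h1
    linarith
  have hx1 : 0 ≤ 1 - 8 * U / L := by linarith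
  have hLU : L - 8 * U = L * (1 - 8 * U / L) := by field_simp
  -- the rows
  have hrow : ∀ n : ℕ, Real.exp (-(8 * U)) * N ≤ (n : ℝ) → n ≤ N →
      3 ≤ n ∧ L - 8 * U ≤ Real.log n ∧ Real.log n ≤ L := by
    intro n hn hnN
    have h1 : Real.exp (L - 8 * U) ≤ n := by
      rw [hNexp, ← Real.exp_add] at hn
      refine le_trans (le_of_eq ?_) hn
      congr 1
      ring
    have h2 : (3 : ℝ) ≤ n := c13.trans ((Real.exp_le_exp.2 (by linarith)).trans h1)
    have hn0 : (0 : ℝ) < n := by linarith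
    refine ⟨by exact_mod_cast h2, ?_, ?_⟩
    · rw [← Real.log_exp (L - 8 * U)]
      exact Real.log_le_log (Real.exp_pos _) h1
    · rw [hL]
      exact Real.log_le_log hn0 (by exact_mod_cast hnN)
  have hfin : (N : ℝ) * Real.exp (-L ^ (lam / u + e)) ≤ Real.exp (-(12 * U)) * N := by
    rw [mul_comm]
    apply mul_le_mul_of_nonneg_right _ hN0.le
    apply Real.exp_le_exp.2
    linarith
  have hhu : ∀ h : ℕ, (h : ℝ) ≤ c * L ^ lam → (h : ℝ) ^ (1 / u) ≤ U := fun h h1 =>
    (Real.rpow_le_rpow (Nat.cast_nonneg _) h1 (by positivity)).trans c7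
  refine hfin.trans ?_
  rcases hcase with ⟨rfl, hbg, har⟩ | ⟨rfl, hga, hbr⟩
  · -- high side
    obtain ⟨h, hh⟩ : ∃ h : ℕ, h = ⌊c * (L - 8 * U) ^ lam⌋₊ := ⟨_, rfl⟩
    have hbase : (L / 2) ^ lam ≤ (L - 8 * U) ^ lam :=
      Real.rpow_le_rpow (by linarith) (by linarith) (by linarith)
    have hhle : (h : ℝ) ≤ c * (L - 8 * U) ^ lam := by
      rw [hh]
      exact Nat.floor_le (mul_nonneg hc.le (Real.rpow_nonneg (by linarith) _))
    have hhge : c * (L - 8 * U) ^ lam - 1 ≤ h := by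
      rw [hh]
      exact (Nat.sub_one_lt_floor _).le
    have hhle' : (h : ℝ) ≤ c * L ^ lam := by
      refine hhle.trans ?_
      apply mul_le_mul_of_nonneg_left _ hc.le
      exact Real.rpow_le_rpow (by linarith) (by linarith) (by linarith)
    have hhH : H₀ ≤ h := by
      have h1 : (H₀ : ℝ) ≤ h := by
        have : c * (L / 2) ^ lam ≤ c * (L - 8 * U) ^ lam := mul_le_mul_of_nonneg_left hbase hc.le
        linarith
      exact_mod_cast h1
    have hkey := (hfix h hhH U c3 (hhu h hhle') (hhle'.trans c6) N hUB (by rw [← hL]; exact c5)).1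
      hbg
    refine hkey.trans ?_
    rw [← hL]
    unfold relCount
    have hsub : (Finset.Icc 1 N).filter (fun n =>
        a * (h / L) ≤ (pw n h : ℝ) ∧ Real.exp (-(8 * U)) * N ≤ (n : ℝ)) ⊆
        (Finset.Icc 3 N).filter (fun m => r * mean lam c m ≤
          1 * ((cnt {p : ℕ | p.Prime} m (hl lam c m) : ℝ) - mean lam c m)) := by
      intro n hn
      rw [Finset.mem_filter, Finset.mem_Icc] at hn
      obtain ⟨⟨hn1, hn2⟩, hn3, hn4⟩ := hn
      obtain ⟨r1, r2, r3⟩ := hrow n hn4 hn2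
      rw [Finset.mem_filter, Finset.mem_Icc]
      refine ⟨⟨r1, hn2⟩, ?_⟩
      rw [one_mul, cnt_primes]
      have h1 : h ≤ hl lam c n := by
        unfold hl
        rw [hh]
        apply Nat.floor_le_floor
        apply mul_le_mul_of_nonneg_left _ hc.le
        exact Real.rpow_le_rpow (by linarith) r2 (by linarith)
      have h2 : (pw n h : ℝ) ≤ pw n (hl lam c n) := by exact_mod_cast pw_mono h1
      have h3 : mean lam c n ≤ M := by
        unfold mean
        rw [hM]
        apply mul_le_mul_of_nonneg_left _ hc.le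
        exact Real.rpow_le_rpow (by linarith) r3 hl1.le
      have h5 : M * (1 - 2 * κ) ≤ h / L := by
        have h6 : M * (1 - κ) * L ≤ c * (L - 8 * U) ^ lam := by
          calc M * (1 - κ) * L = (M * L) * (1 - κ) := by ring
            _ = (c * L ^ lam) * (1 - κ) := by rw [hML]
            _ ≤ (c * L ^ lam) * (1 - 8 * U / L) ^ lam :=
                mul_le_mul_of_nonneg_left hbern (by positivity)
            _ = c * (L - 8 * U) ^ lam := by
                rw [hLU, Real.mul_rpow hL0.le hx1]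
                ring
        have h7 : 1 ≤ M * κ := by
          rw [div_le_iff₀ hM0] at c8
          linarith
        have h8 : (1 : ℝ) ≤ M * κ * L := by
          calc (1 : ℝ) ≤ M * κ := h7
            _ ≤ M * κ * L := le_mul_of_one_le_right (by positivity) c1
        rw [le_div_iff₀ hL0]
        have : M * (1 - 2 * κ) * L = M * (1 - κ) * L - M * κ * L := by ring
        rw [this]
        linarith
      have h6 : M * (1 + r) ≤ pw n (hl lam c n) := by
        calc M * (1 + r) ≤ M * (a * (1 - 2 * κ)) := mul_le_mul_of_nonneg_left har hM0.le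
          _ = a * (M * (1 - 2 * κ)) := by ring
          _ ≤ a * (h / L) := mul_le_mul_of_nonneg_left h5 ha
          _ ≤ _ := hn3.trans h2
      have h7 : mean lam c n * (1 + r) ≤ M * (1 + r) :=
        mul_le_mul_of_nonneg_right h3 (by linarith)
      linarith
    exact_mod_cast Finset.card_le_card hsub
  · -- low side
    obtain ⟨h, hh⟩ : ∃ h : ℕ, h = ⌊c * L ^ lam⌋₊ := ⟨_, rfl⟩
    have hhle : (h : ℝ) ≤ c * L ^ lam := by
      rw [hh]
      exact Nat.floor_le (by positivity)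
    have hbase : (L / 2) ^ lam ≤ L ^ lam :=
      Real.rpow_le_rpow (by linarith) (by linarith) (by linarith)
    have hhge : c * L ^ lam - 1 ≤ h := by
      rw [hh]
      exact (Nat.sub_one_lt_floor _).le
    have hhH : H₀ ≤ h := by
      have h1 : (H₀ : ℝ) ≤ h := by
        have : c * (L / 2) ^ lam ≤ c * L ^ lam := mul_le_mul_of_nonneg_left hbase hc.le
        linarith
      exact_mod_cast h1
    have hkey := (hfix h hhH U c3 (hhu h hhle) (hhle.trans c6) N hUB (by rw [← hL]; exact c5)).2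
      hga
    refine hkey.trans ?_
    rw [← hL]
    unfold relCount
    have hsub : (Finset.Icc 1 N).filter (fun n =>
        (pw n h : ℝ) ≤ b * (h / L) ∧ Real.exp (-(8 * U)) * N ≤ (n : ℝ)) ⊆
        (Finset.Icc 3 N).filter (fun m => r * mean lam c m ≤
          -1 * ((cnt {p : ℕ | p.Prime} m (hl lam c m) : ℝ) - mean lam c m)) := by
      intro n hn
      rw [Finset.mem_filter, Finset.mem_Icc] at hn
      obtain ⟨⟨hn1, hn2⟩, hn3, hn4⟩ := hn
      obtain ⟨r1, r2, r3⟩ := hrow n hn4 hn2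
      rw [Finset.mem_filter, Finset.mem_Icc]
      refine ⟨⟨r1, hn2⟩, ?_⟩
      rw [cnt_primes]
      have h1 : hl lam c n ≤ h := by
        unfold hl
        rw [hh]
        apply Nat.floor_le_floor
        apply mul_le_mul_of_nonneg_left _ hc.le
        exact Real.rpow_le_rpow (by linarith) r3 (by linarith)
      have h2 : (pw n (hl lam c n) : ℝ) ≤ pw n h := by exact_mod_cast pw_mono h1
      have h3 : M * (1 - κ) ≤ mean lam c n := by
        unfold mean
        have h5 : (L - 8 * U) ^ (lam - 1) ≤ Real.log n ^ (lam - 1) :=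
          Real.rpow_le_rpow (by linarith) r2 hl1.le
        have h6 : (1 - 8 * U / L) ^ lam ≤ (1 - 8 * U / L) ^ (lam - 1) := by
          apply Real.rpow_le_rpow_of_exponent_ge' hx1 _ hl1.le (by linarith)
          have : 0 ≤ 8 * U / L := by positivity
          linarith
        calc M * (1 - κ) ≤ M * (1 - 8 * U / L) ^ (lam - 1) :=
              mul_le_mul_of_nonneg_left (hbern.trans h6) hM0.le
          _ = c * (L - 8 * U) ^ (lam - 1) := by
              rw [hM, hLU, Real.mul_rpow hL0.le hx1]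
              ring
          _ ≤ _ := mul_le_mul_of_nonneg_left h5 hc.le
      have hb0 : 0 < b := lt_of_le_of_lt ha hab
      have hr1 : 0 ≤ 1 - r := by
        by_contra hcon
        push Not at hcon
        have : (1 - r) * (1 - κ) ≤ 0 :=
          mul_nonpos_of_nonpos_of_nonneg hcon.le (by linarith)
        linarith
      have h5 : b * (h / L) ≤ b * M := by
        apply mul_le_mul_of_nonneg_left _ hb0.le
        rw [div_le_iff₀ hL0, hML]
        exact hhle
      have h6 : b * M ≤ (1 - r) * mean lam c n := by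
        calc b * M ≤ ((1 - r) * (1 - κ)) * M := mul_le_mul_of_nonneg_right hbr hM0.le
          _ = (1 - r) * (M * (1 - κ)) := by ring
          _ ≤ _ := mul_le_mul_of_nonneg_left h3 hr1
      linarith
    exact_mod_cast Finset.card_le_card hsub

end Pool.Agent.LibEnd63
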