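import Pool.Agent.LibH.Model
import Pool.Agent.LibEnd63.Defs

/-!
Cramér's model: relative deviations of fixed size.
-/

namespace Pool.Agent.LibEnd63

open Filter Topology MeasureTheory ProbabilityTheory
open Pool.Agent.LibCramer (ind measurable_ind mgf_ind)
open Pool.Agent.LibH
open scoped ENNReal NNReal

variable {Ω : Type*} [MeasurableSpace Ω] {μ : Measure Ω}

/-- Borel–Cantelli with general weights. -/
theorem ae_count_gen [IsProbabilityMeasure μ] {Bad : ℕ → Set Ω} (hBad : ∀ m, MeasurableSet (Bad m))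
    {W : ℕ → ℝ} (hW0 : ∀ m, 0 < W m) {m0 : ℕ} (hmono : ∀ m n : ℕ, m0 ≤ m → m ≤ n → W m ≤ W n)
    (hsum : Summable fun m : ℕ => μ.real (Bad m) / W m) :
    ∀ᵐ ω ∂μ, ∃ C : ℝ, ∀ X : ℕ, m0 ≤ X → ({m : ℕ | 1 ≤ m ∧ m ≤ X ∧ ω ∈ Bad m}.ncard : ℝ) ≤
      C + C * W X := by
  classical
  obtain ⟨w, hw⟩ : ∃ w : ℕ → ℝ, w = fun m : ℕ => (W m)⁻¹ := ⟨_, rfl⟩
  have hw0 : ∀ m, 0 < w m := fun m => by rw [hw]; exact inv_pos.2 (hW0 m)
  have hsum' : Summable fun m : ℕ => w m * μ.real (Bad m) := by
    refine hsum.congr fun m => ?_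
    rw [hw, div_eq_mul_inv, mul_comm]
  have hfin : ∀ᵐ ω ∂μ, (∑' m : ℕ, (Bad m).indicator (fun _ => ENNReal.ofReal (w m)) ω) < ∞ := by
    apply ae_lt_top
    · exact Measurable.tsum fun m => measurable_const.indicator (hBad m)
    · rw [lintegral_tsum fun m => (measurable_const.indicator (hBad m)).aemeasurable]
      have : ∀ m : ℕ, ∫⁻ ω, (Bad m).indicator (fun _ => ENNReal.ofReal (w m)) ω ∂μ =
          ENNReal.ofReal (w m * μ.real (Bad m)) := by
        intro m
        rw [lintegral_indicator_const (hBad m), ENNReal.ofReal_mul (hw0 m).le, Measure.real,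
          ENNReal.ofReal_toReal (measure_ne_top _ _)]
      simp_rw [this]
      exact hsum'.tsum_ofReal_ne_top
  filter_upwards [hfin] with ω hω
  obtain ⟨f, hf⟩ : ∃ f : ℕ → ℝ, f = fun m : ℕ => (Bad m).indicator (fun _ => w m) ω := ⟨_, rfl⟩
  have hf0 : ∀ m, 0 ≤ f m := fun m => by
    rw [hf]
    exact Set.indicator_nonneg (fun _ _ => (hw0 m).le) ω
  have hfs : Summable f := by
    have h1 : ∑' m : ℕ, ENNReal.ofReal (f m) ≠ ∞ := by
      refine ne_of_lt (lt_of_le_of_lt (le_of_eq ?_) hω)
      apply tsum_congr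
      intro m
      simp only [hf]
      by_cases h : ω ∈ Bad m
      · rw [Set.indicator_of_mem h, Set.indicator_of_mem h]
      · rw [Set.indicator_of_notMem h, Set.indicator_of_notMem h, ENNReal.ofReal_zero]
    have := ENNReal.summable_toReal h1
    refine this.congr fun m => ?_
    rw [ENNReal.toReal_ofReal (hf0 m)]
  have hS0 : 0 ≤ ∑' m, f m := tsum_nonneg hf0
  refine ⟨max (m0 : ℝ) (∑' m, f m), fun X hX => ?_⟩
  have hset : {m : ℕ | 1 ≤ m ∧ m ≤ X ∧ ω ∈ Bad m} =
      ((Finset.Icc 1 X).filter (fun m => ω ∈ Bad m) : Set ℕ) := by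
    ext m
    simp only [Set.mem_ofPred_eq, Finset.coe_filter, Finset.mem_Icc]
    tauto
  rw [hset, Set.ncard_coe_finset]
  have hsub : (Finset.Icc 1 X).filter (fun m => ω ∈ Bad m) ⊆
      Finset.range m0 ∪ (Finset.Icc m0 X).filter (fun m => ω ∈ Bad m) := by
    intro m hm
    rw [Finset.mem_filter, Finset.mem_Icc] at hm
    rw [Finset.mem_union, Finset.mem_range, Finset.mem_filter, Finset.mem_Icc]
    rcases lt_or_ge m m0 with h | h
    · exact Or.inl h
    · exact Or.inr ⟨⟨h, hm.1.2⟩, hm.2⟩
  have hc1 : (((Finset.Icc 1 X).filter (fun m => ω ∈ Bad m)).card : ℝ) ≤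
      m0 + (((Finset.Icc m0 X).filter (fun m => ω ∈ Bad m)).card : ℝ) := by
    have h3 := Finset.card_le_card hsub
    have h4 := Finset.card_union_le (Finset.range m0) ((Finset.Icc m0 X).filter (fun m => ω ∈ Bad m))
    rw [Finset.card_range] at h4
    exact_mod_cast h3.trans h4
  have hc2 : (((Finset.Icc m0 X).filter (fun m => ω ∈ Bad m)).card : ℝ) ≤
      (∑' m, f m) * W X := by
    have h3 : (((Finset.Icc m0 X).filter (fun m => ω ∈ Bad m)).card : ℝ) * w X ≤ ∑' m, f m := by
      calc (((Finset.Icc m0 X).filter (fun m => ω ∈ Bad m)).card : ℝ) * w X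
          = ∑ _m ∈ (Finset.Icc m0 X).filter (fun m => ω ∈ Bad m), w X := by
            rw [Finset.sum_const, nsmul_eq_mul]
        _ ≤ ∑ m ∈ (Finset.Icc m0 X).filter (fun m => ω ∈ Bad m), f m := by
            apply Finset.sum_le_sum
            intro m hm
            rw [Finset.mem_filter, Finset.mem_Icc] at hm
            simp only [hf, Set.indicator_of_mem hm.2]
            rw [hw]
            exact inv_anti₀ (hW0 m) (hmono m X hm.1.1 hm.1.2)
        _ ≤ ∑' m, f m := hfs.sum_le_tsum _ (fun m _ => hf0 m)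
    rw [hw] at h3
    simp only at h3
    rwa [← div_eq_mul_inv, div_le_iff₀ (hW0 X)] at h3
  have h5 : (∑' m, f m) * W X ≤ max (m0 : ℝ) (∑' m, f m) * W X :=
    mul_le_mul_of_nonneg_right (le_max_right _ _) (hW0 X).le
  have h6 : (m0 : ℝ) ≤ max (m0 : ℝ) (∑' m, f m) := le_max_left _ _
  linarith

/-- the rate `(1 + x) log (1 + x) - x` -/
noncomputable def rate (x : ℝ) : ℝ := (1 + x) * Real.log (1 + x) - x

lemma rate_pos {x : ℝ} (h1 : -1 < x) (h2 : x ≠ 0) : 0 < rate x := by
  have h3 : 0 < 1 + x := by linarith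
  have h4 : (1 + x)⁻¹ ≠ 1 := by
    intro h
    rw [inv_eq_one] at h
    apply h2
    linarith
  have h5 := Real.log_lt_sub_one_of_pos (inv_pos.2 h3) h4
  rw [Real.log_inv] at h5
  have h6 := mul_lt_mul_of_pos_left h5 h3
  have h7 : (1 + x) * ((1 + x)⁻¹ - 1) = -x := by
    field_simp
    ring
  rw [h7] at h6
  unfold rate
  linarith

/-- the event that the window at `m` deviates -/
def BadR (E : ℕ → Set Ω) (lam c r s : ℝ) (m : ℕ) : Set Ω :=
  {ω | r * mean lam c m ≤ s * ((cnt {n | ω ∈ E n} m (hl lam c m) : ℝ) - mean lam c m)}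

lemma measurableSet_BadR {E : ℕ → Set Ω} (hE : ∀ n, MeasurableSet (E n)) (lam c r s : ℝ)
    (m : ℕ) : MeasurableSet (BadR E lam c r s m) := by
  unfold BadR
  simp_rw [cnt_eq_sum_ind]
  exact measurableSet_le measurable_const
    (((measurable_sum_ind hE _).sub measurable_const).const_mul s)

/-- the probability of a deviation -/
lemma prob_BadR_le [IsProbabilityMeasure μ] {E : ℕ → Set Ω} (hE : ∀ n, MeasurableSet (E n))
    (hind : iIndepSet E μ) (hp : ∀ᶠ n : ℕ in atTop, μ.real (E n) = 1 / Real.log (n : ℝ))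
    {lam c r s : ℝ} (hlam : 1 < lam) (hc : 0 < c) (hr : 0 < r) (hr1 : r < 1)
    (hs : s = 1 ∨ s = -1) :
    ∀ᶠ m : ℕ in atTop, μ.real (BadR E lam c r s m) ≤
      Real.exp (2 - rate (s * r) * mean lam c m) := by
  obtain ⟨n0, hn0⟩ := eventually_atTop.mp hp
  filter_upwards [window_sum hlam hc, eventually_ge_atTop n0] with m h1 h3
  have h4 : ∑ j ∈ Finset.Ioc m (m + hl lam c m), μ.real (E j) =
      ∑ j ∈ Finset.Ioc m (m + hl lam c m), 1 / Real.log (j : ℝ) := by
    apply Finset.sum_congr rfl
    intro j hj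
    rw [Finset.mem_Ioc] at hj
    exact hn0 j (by omega)
  rw [← h4] at h1
  set S : ℝ := ∑ j ∈ Finset.Ioc m (m + hl lam c m), μ.real (E j) with hS
  set M : ℝ := mean lam c m with hM
  obtain ⟨h5, h6⟩ := abs_le.1 h1
  rcases hs with rfl | rfl
  · have h7 : 0 ≤ Real.log (1 + r) := Real.log_nonneg (by linarith)
    have h8 := chern_up hE hind (Finset.Ioc m (m + hl lam c m)) h7 ((1 + r) * M)
    rw [← hS, Real.exp_log (by linarith)] at h8
    refine le_trans (measureReal_mono ?_) (h8.trans ?_)
    · intro ω hω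
      simp only [BadR, Set.mem_ofPred_eq, cnt_eq_sum_ind] at hω ⊢
      rw [← hM] at hω
      linarith
    · apply Real.exp_le_exp.2
      unfold rate
      rw [one_mul]
      have h9 : (1 + r - 1) * S ≤ r * (M + 2) := by
        have : (1 + r - 1) * S = r * S := by ring
        rw [this]
        exact mul_le_mul_of_nonneg_left (by linarith) hr.le
      have h10 : -Real.log (1 + r) * ((1 + r) * M) + r * (M + 2) =
          2 * r - ((1 + r) * Real.log (1 + r) - r) * M := by ring
      linarith
  · have h7 : 0 ≤ -Real.log (1 - r) := by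
      have := Real.log_nonpos (show 0 ≤ 1 - r by linarith) (by linarith)
      linarith
    have h8 := chern_low hE hind (Finset.Ioc m (m + hl lam c m)) h7 ((1 - r) * M)
    rw [← hS, neg_neg, Real.exp_log (by linarith)] at h8
    refine le_trans (measureReal_mono ?_) (h8.trans ?_)
    · intro ω hω
      simp only [BadR, Set.mem_ofPred_eq, cnt_eq_sum_ind] at hω ⊢
      rw [← hM] at hω
      linarith
    · apply Real.exp_le_exp.2
      unfold rate
      have h9 : (1 - r - 1) * S ≤ -r * (M - 2) := by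
        have h10 : (1 - r - 1) * S = -(r * S) := by ring
        rw [h10]
        have := mul_le_mul_of_nonneg_left (show M - 2 ≤ S by linarith) hr.le
        linarith
      have h10 : -Real.log (1 - r) * ((1 - r) * M) + -r * (M - 2) =
          2 * r - ((1 + -1 * r) * Real.log (1 - r) - -1 * r) * M := by ring
      have h11 : (1 + -1 * r : ℝ) = 1 - r := by ring
      rw [h11] at h10 ⊢
      linarith

/-- the exponent of the weights -/
noncomputable def GG (e κ K a : ℝ) (y : ℝ) : ℝ := max (e * y) (y - κ * (K * y ^ a))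

/-- eventually monotone -/
lemma GG_mono {e κ K a : ℝ} (he : 0 < e) (ha : a ≤ 1) : ∃ y0 : ℝ, 0 < y0 ∧
    ∀ y y' : ℝ, y0 ≤ y → y ≤ y' → GG e κ K a y ≤ GG e κ K a y' := by
  rcases lt_or_eq_of_le ha with ha1 | ha1
  · obtain ⟨y0, hy0⟩ := FF_mono (K := K) (b := 0) (κ := κ) ha1
    refine ⟨max y0 1, by positivity, fun y y' h1 h2 => ?_⟩
    have h3 := hy0 y y' ((le_max_left _ _).trans h1) h2
    unfold FF at h3
    rw [Real.rpow_zero, Real.rpow_zero, mul_one, mul_one] at h3
    exact max_le_max (mul_le_mul_of_nonneg_left h2 he.le) h3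
  · refine ⟨1, one_pos, fun y y' h1 h2 => ?_⟩
    unfold GG
    rw [ha1, Real.rpow_one, Real.rpow_one]
    rcases le_or_gt 0 (1 - κ * K) with h3 | h3
    · apply max_le_max (mul_le_mul_of_nonneg_left h2 he.le)
      have h4 := mul_le_mul_of_nonneg_left h2 h3
      linarith
    · apply max_le
      · exact (mul_le_mul_of_nonneg_left h2 he.le).trans (le_max_left _ _)
      · refine le_trans ?_ (le_max_left _ _)
        have h4 : y - κ * (K * y) = (1 - κ * K) * y := by ring
        rw [h4]
        have h5 : (1 - κ * K) * y ≤ 0 := mul_nonpos_of_nonpos_of_nonneg h3.le (by linarith)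
        have h6 : 0 ≤ e * y' := mul_nonneg he.le (by linarith)
        linarith

/-- **Cramér's model, relative deviations**: the almost sure upper bound. -/
theorem model_rel [IsProbabilityMeasure μ] {E : ℕ → Set Ω} (hE : ∀ n, MeasurableSet (E n))
    (hind : iIndepSet E μ) (hp : ∀ᶠ n : ℕ in atTop, μ.real (E n) = 1 / Real.log (n : ℝ))
    {lam c r s : ℝ} (hlam : 1 < lam) (hlam2 : lam ≤ 2) (hc : 0 < c) (hr : 0 < r) (hr1 : r < 1)
    (hs : s = 1 ∨ s = -1) :
    ∀ᵐ ω ∂μ, ∀ e : ℝ, 0 < e → ∀ᶠ X : ℕ in atTop,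
      (relCount {n | ω ∈ E n} lam c r s X : ℝ) ≤
      (X : ℝ) ^ e + X * Real.exp (-(1 - e) * (rate (s * r) * (c * Real.log X ^ (lam - 1)))) := by
  set I : ℝ := rate (s * r) with hI
  have hI0 : 0 < I := by
    apply rate_pos
    · rcases hs with rfl | rfl <;> linarith
    · rcases hs with rfl | rfl
      · rw [one_mul]; exact hr.ne'
      · intro h; linarith
  set K : ℝ := I * c with hK
  have hK0 : 0 < K := by positivity
  have hl0 : 0 ≤ lam - 1 := by linarith
  have hl1 : lam - 1 ≤ 1 := by linarith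
  have hL : Tendsto (fun m : ℕ => Real.log (m : ℝ)) atTop atTop :=
    Real.tendsto_log_atTop.comp tendsto_natCast_atTop_atTop
  -- for each rational exponent
  have hq : ∀ k : ℕ, ∀ᵐ ω ∂μ, ∃ C : ℝ, ∀ᶠ X : ℕ in atTop,
      ({m : ℕ | 1 ≤ m ∧ m ≤ X ∧ ω ∈ BadR E lam c r s m}.ncard : ℝ) ≤ C + C *
        Real.exp (GG (1 / ((k : ℝ) + 1)) (1 - 1 / ((k : ℝ) + 1)) K (lam - 1) (Real.log X)) := by
    intro k
    have hk : (0 : ℝ) < 1 / ((k : ℝ) + 1) := by positivity
    set e : ℝ := 1 / ((k : ℝ) + 1) with he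
    obtain ⟨y0, hy00, hy0⟩ := GG_mono (κ := 1 - e) (K := K) hk hl1
    obtain ⟨m0, hm0⟩ := eventually_atTop.1 ((hL.eventually_ge_atTop y0).and
      (eventually_ge_atTop 1))
    have hgen := ae_count_gen (μ := μ) (Bad := BadR E lam c r s)
      (fun m => measurableSet_BadR hE _ _ _ _ m)
      (W := fun m => Real.exp (GG e (1 - e) K (lam - 1) (Real.log m)))
      (fun m => Real.exp_pos _) (m0 := m0) (by
        intro m n hm hmn
        apply Real.exp_le_exp.2
        apply hy0 _ _ (hm0 m hm).1
        apply Real.log_le_log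
        · have := (hm0 m hm).2
          exact_mod_cast this
        · exact_mod_cast hmn) (by
        refine summable_of_isBigO_nat summable_inv_mul_log_sq ?_
        apply Asymptotics.IsBigO.of_bound (4 * Real.exp 2)
        have hgrow : ∀ᶠ m : ℕ in atTop, 2 * Real.log (Real.log (m : ℝ)) ≤
            e * (K * Real.log (m : ℝ) ^ (lam - 1)) := by
          have h1 : Tendsto (fun y : ℝ => Real.log y / y ^ (lam - 1)) atTop (𝓝 0) :=
            (isLittleO_log_rpow_atTop (by linarith)).tendsto_div_nhds_zero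
          filter_upwards [hL.eventually (h1.eventually_le_const (show 0 < e * K / 2 by
            positivity)), hL.eventually_gt_atTop 0] with m h2 h3
          rw [div_le_iff₀ (by positivity)] at h2
          linarith
        filter_upwards [prob_BadR_le hE hind hp hlam hc hr hr1 hs, hgrow, eventually_ge_atTop 2,
          hL.eventually_ge_atTop 1] with m hm hm2 hm3 hm4
        have hmr : (2 : ℝ) ≤ m := by exact_mod_cast hm3
        have hl2 : 0 < Real.log ((m : ℝ) + 2) := Real.log_pos (by linarith)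
        rw [Real.norm_eq_abs, abs_of_nonneg (div_nonneg measureReal_nonneg (Real.exp_pos _).le),
          Real.norm_eq_abs, abs_of_nonneg (by positivity)]
        have h5 : Real.log ((m : ℝ) + 2) ≤ 2 * Real.log (m : ℝ) := by
          have : Real.log ((m : ℝ) + 2) ≤ Real.log ((m : ℝ) ^ 2) :=
            Real.log_le_log (by linarith) (by nlinarith)
          rw [Real.log_pow] at this
          exact_mod_cast this
        have hmean : I * mean lam c m = K * Real.log (m : ℝ) ^ (lam - 1) := by
          unfold mean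
          rw [hK]
          ring
        rw [hmean] at hm
        calc μ.real (BadR E lam c r s m) / Real.exp (GG e (1 - e) K (lam - 1) (Real.log m))
            ≤ Real.exp (2 - K * Real.log (m : ℝ) ^ (lam - 1)) /
              Real.exp (Real.log m - (1 - e) * (K * Real.log (m : ℝ) ^ (lam - 1))) := by
              apply div_le_div₀ (Real.exp_pos _).le hm (Real.exp_pos _)
              exact Real.exp_le_exp.2 (le_max_right _ _)
          _ = Real.exp 2 * Real.exp (-Real.log (m : ℝ) +
              -(e * (K * Real.log (m : ℝ) ^ (lam - 1)))) := by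
              rw [← Real.exp_sub, ← Real.exp_add]
              congr 1
              ring
          _ ≤ Real.exp 2 * Real.exp (-Real.log (m : ℝ) + -(2 * Real.log (Real.log (m : ℝ)))) := by
              apply mul_le_mul_of_nonneg_left _ (Real.exp_pos _).le
              apply Real.exp_le_exp.2
              linarith
          _ = Real.exp 2 * (1 / ((m : ℝ) * Real.log (m : ℝ) ^ 2)) := by
              have e1 : Real.exp (2 * Real.log (Real.log (m : ℝ))) = Real.log (m : ℝ) ^ 2 := by
                rw [two_mul, Real.exp_add, Real.exp_log (by linarith)]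
                ring
              rw [Real.exp_add, Real.exp_neg, Real.exp_neg, e1, Real.exp_log (by linarith)]
              field_simp
          _ ≤ 4 * Real.exp 2 * (1 / ((m : ℝ) * Real.log ((m : ℝ) + 2) ^ 2)) := by
              rw [mul_comm 4, mul_assoc]
              apply mul_le_mul_of_nonneg_left _ (Real.exp_pos _).le
              have h6 : 0 < Real.log (m : ℝ) := by linarith
              rw [mul_one_div, div_le_div_iff₀ (by positivity) (by positivity)]
              have h7 : Real.log ((m : ℝ) + 2) ^ 2 ≤ (2 * Real.log (m : ℝ)) ^ 2 := by gcongr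
              nlinarith)
    filter_upwards [hgen] with ω hω
    obtain ⟨C, hC⟩ := hω
    exact ⟨C, (eventually_ge_atTop m0).mono fun X hX => hC X hX⟩
  rw [← ae_all_iff] at hq
  filter_upwards [hq] with ω hω e he
  obtain ⟨k, hk⟩ := exists_nat_gt (2 / e)
  obtain ⟨C, hC⟩ := hω k
  have hk1 : (0 : ℝ) < (k : ℝ) + 1 := by positivity
  set e' : ℝ := 1 / ((k : ℝ) + 1) with he'
  have he'0 : 0 < e' := by positivity
  have hke : 2 * e' ≤ e := by
    rw [div_lt_iff₀ he] at hk
    rw [he', mul_one_div, div_le_iff₀ hk1]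
    nlinarith
  have hXt : Tendsto (fun X : ℕ => (X : ℝ) ^ e') atTop atTop :=
    (tendsto_rpow_atTop he'0).comp tendsto_natCast_atTop_atTop
  have hXg : Tendsto (fun X : ℕ => Real.exp (e' * (K * Real.log X ^ (lam - 1)))) atTop atTop := by
    apply Real.tendsto_exp_atTop.comp
    exact (((tendsto_rpow_atTop (by linarith)).comp hL).const_mul_atTop hK0).const_mul_atTop he'0
  filter_upwards [hC, hXt.eventually_ge_atTop (2 * |C|), hXg.eventually_ge_atTop |C|,
    eventually_ge_atTop 1, hL.eventually_ge_atTop 1] with X h1 h2 h3 h4 h5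
  have hX1 : (1 : ℝ) ≤ X := by exact_mod_cast h4
  have hX0 : (0 : ℝ) < X := by linarith
  set y : ℝ := Real.log X with hy
  have hsub : (relCount {n | ω ∈ E n} lam c r s X : ℝ) ≤
      ({m : ℕ | 1 ≤ m ∧ m ≤ X ∧ ω ∈ BadR E lam c r s m}.ncard : ℝ) := by
    have hfinite : {m : ℕ | 1 ≤ m ∧ m ≤ X ∧ ω ∈ BadR E lam c r s m}.Finite :=
      (Set.finite_Iic X).subset fun m hm => hm.2.1
    unfold relCount
    rw [← Set.ncard_coe_finset]
    have hsub : (((Finset.Icc 3 X).filter (fun m => r * mean lam c m ≤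
          s * ((cnt {n | ω ∈ E n} m (hl lam c m) : ℝ) - mean lam c m)) : Finset ℕ) : Set ℕ) ⊆
        {m : ℕ | 1 ≤ m ∧ m ≤ X ∧ ω ∈ BadR E lam c r s m} := by
      intro m hm
      rw [Finset.mem_coe, Finset.mem_filter, Finset.mem_Icc] at hm
      exact ⟨by omega, hm.1.2, hm.2⟩
    exact_mod_cast Set.ncard_le_ncard hsub hfinite
  refine hsub.trans (h1.trans ?_)
  have hXe : (X : ℝ) ^ e = Real.exp (e * y) := by
    rw [Real.rpow_def_of_pos hX0, mul_comm]
  have hXe' : (X : ℝ) ^ e' = Real.exp (e' * y) := by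
    rw [Real.rpow_def_of_pos hX0, mul_comm]
  rw [hXe'] at h2
  have hy0 : 0 ≤ y := by linarith
  have hC0 : 0 ≤ |C| := abs_nonneg C
  have hg0 : 0 ≤ K * y ^ (lam - 1) := by positivity
  have hCC : C ≤ |C| := le_abs_self C
  have hgoal : I * (c * y ^ (lam - 1)) = K * y ^ (lam - 1) := by rw [hK]; ring
  rw [hgoal, hXe]
  -- the two terms
  have hexpmax : Real.exp (GG e' (1 - e') K (lam - 1) y) ≤
      Real.exp (e' * y) + Real.exp (y - (1 - e') * (K * y ^ (lam - 1))) := by
    unfold GG
    rcases le_total (e' * y) (y - (1 - e') * (K * y ^ (lam - 1))) with h6 | h6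
    · rw [max_eq_right h6]
      have := Real.exp_pos (e' * y)
      linarith
    · rw [max_eq_left h6]
      have := Real.exp_pos (y - (1 - e') * (K * y ^ (lam - 1)))
      linarith
  have t1 : |C| + |C| * Real.exp (e' * y) ≤ Real.exp (e * y) := by
    have h6 : (1 : ℝ) ≤ Real.exp (e' * y) := Real.one_le_exp (by positivity)
    calc |C| + |C| * Real.exp (e' * y) ≤ |C| * Real.exp (e' * y) + |C| * Real.exp (e' * y) := by
          have := le_mul_of_one_le_right hC0 h6
          linarith
      _ = (2 * |C|) * Real.exp (e' * y) := by ring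
      _ ≤ Real.exp (e' * y) * Real.exp (e' * y) :=
          mul_le_mul_of_nonneg_right h2 (Real.exp_pos _).le
      _ = Real.exp (2 * e' * y) := by
          rw [← Real.exp_add]
          congr 1
          ring
      _ ≤ Real.exp (e * y) := Real.exp_le_exp.2 (mul_le_mul_of_nonneg_right hke hy0)
  have t2 : |C| * Real.exp (y - (1 - e') * (K * y ^ (lam - 1))) ≤
      X * Real.exp (-(1 - e) * (K * y ^ (lam - 1))) := by
    calc |C| * Real.exp (y - (1 - e') * (K * y ^ (lam - 1)))
        ≤ Real.exp (e' * (K * y ^ (lam - 1))) *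
          Real.exp (y - (1 - e') * (K * y ^ (lam - 1))) :=
          mul_le_mul_of_nonneg_right h3 (Real.exp_pos _).le
      _ = X * Real.exp (-(1 - 2 * e') * (K * y ^ (lam - 1))) := by
          have hXy : (X : ℝ) = Real.exp y := by rw [hy, Real.exp_log hX0]
          rw [hXy, ← Real.exp_add, ← Real.exp_add]
          congr 1
          ring
      _ ≤ X * Real.exp (-(1 - e) * (K * y ^ (lam - 1))) := by
          apply mul_le_mul_of_nonneg_left _ hX0.le
          apply Real.exp_le_exp.2
          apply mul_le_mul_of_nonneg_right _ hg0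
          linarith
  calc C + C * Real.exp (GG e' (1 - e') K (lam - 1) y)
      ≤ |C| + |C| * Real.exp (GG e' (1 - e') K (lam - 1) y) := by
        have := mul_le_mul_of_nonneg_right hCC (Real.exp_pos (GG e' (1 - e') K (lam - 1) y)).le
        linarith
    _ ≤ |C| + |C| * (Real.exp (e' * y) + Real.exp (y - (1 - e') * (K * y ^ (lam - 1)))) := by
        have := mul_le_mul_of_nonneg_left hexpmax hC0
        linarith
    _ ≤ _ := by
        rw [mul_add]
        linarith

end Pool.Agent.LibEnd63
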