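import Pool.Agent.LibG2.Good
import Pool.Agent.LibMaier.SmallBound

/-!
The sum over all non-principal characters modulo `P(z) / p`, in the range `x ≥ U^B`, `B > 1`
(density argument, adapted from `LibMaier.SmallSum`).
-/

namespace Pool.Agent.LibEnd63

open Filter Topology Complex DirichletCharacter MeasureTheory
open Pool.Agent.LibMaier Pool.Agent.LibG2

/-- Sum over all non-principal characters to a modulus without exceptional zeros. -/
theorem sum_SS_dens {q : ℕ} [NeZero q] {Q : ℕ} {T : ℝ} (hT2 : 2 ≤ T)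
    (hQ : (q : ℝ) * (T + 3) ≤ Q) (hQ4 : 4 ≤ Q) (hL1 : 8 * kk ≤ Real.log Q)
    (hL2 : 1 ≤ Real.log Q)
    (hgood : ∀ χ : DirichletCharacter ℂ q, χ ≠ 1 → ∀ ρ : ℂ, LFunction χ ρ = 0 →
      |ρ.im| ≤ T → ρ.re ≤ 1 - kk / Real.log Q)
    {x : ℝ} (hx1 : 1 ≤ x) (hx : 320 * Real.log Q ≤ x) :
    ∑ χ ∈ (Finset.univ : Finset (DirichletCharacter ℂ q)).erase 1, ‖SS χ x‖ ≤
      (Real.log Q / (8 * kk) + 2) *
        (4 * (2 + 10 * Real.log Q) ^ 5 * T * Real.exp (-(kk / Real.log Q * x / 8)) *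
            (20 * (Real.log Q + 3) / (kk / Real.log Q) ^ 2) +
          Real.exp (Real.log Q) * (6 * Real.exp (-(T - 2) ^ 2 / 2) *
            (20 * (Real.log Q + 3) / (kk / Real.log Q) ^ 2) +
          6 * LS (1 / x) * Real.exp (-(T - 2) ^ 2 / 4))) := by
  classical
  have hkk : 0 < kk := by unfold kk; norm_num
  set L := Real.log Q with hL
  set a0 : ℝ := kk / L with ha0
  have hL0 : 0 < L := by linarith
  have ha00 : 0 < a0 := by rw [ha0]; positivity
  have ha08 : a0 ≤ 1 / 8 := by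
    rw [ha0, div_le_iff₀ (by positivity)]
    linarith
  have hQ0 : (0 : ℝ) < Q := by
    have : 0 < Q := by omega
    exact_mod_cast this
  have hq1 : (1 : ℝ) ≤ q := by exact_mod_cast Nat.one_le_iff_ne_zero.2 (NeZero.ne q)
  have hLLT : LL q T ≤ L := by
    rw [hL, LL]
    exact Real.log_le_log (by positivity) hQ
  have hqL : (q : ℝ) ≤ Real.exp L := by
    rw [hL, Real.exp_log hQ0]
    nlinarith
  set D0 : ℝ := 20 * (L + 3) / a0 ^ 2 with hD0
  have hD00 : 0 ≤ D0 := by rw [hD0]; positivity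
  set E2 : ℝ := Real.exp (-(T - 2) ^ 2 / 2) with hE2
  set E3 : ℝ := Real.exp (-(T - 2) ^ 2 / 4) with hE3
  have hLS := LS_nonneg (1 / x)
  -- levels
  set P : DirichletCharacter ℂ q → ℕ → Prop := fun χ j =>
    2 ^ j * a0 ≤ 1 / 8 ∧ ∀ ρ : ℂ, LFunction χ ρ = 0 → |ρ.im| ≤ T → ρ.re ≤ 1 - 2 ^ j * a0 with hP
  set K : ℕ := ⌈L / (8 * kk)⌉₊ with hK
  have hPK : ∀ χ : DirichletCharacter ℂ q, ∀ j, P χ j → j ≤ K := by
    intro χ j hj
    have h1 : (2 : ℝ) ^ j * a0 ≤ 1 / 8 := hj.1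
    have h2 : (2 : ℝ) ^ j ≤ L / (8 * kk) := by
      rw [le_div_iff₀ (by positivity)]
      rw [ha0, mul_div_assoc', div_le_iff₀ hL0] at h1
      linarith
    have h3 : (j : ℝ) ≤ K := by
      calc (j : ℝ) ≤ (2 : ℝ) ^ j := by exact_mod_cast (Nat.lt_two_pow_self).le
        _ ≤ L / (8 * kk) := h2
        _ ≤ K := Nat.le_ceil _
    exact_mod_cast h3
  set lev : DirichletCharacter ℂ q → ℕ := fun χ => Nat.findGreatest (P χ) K with hlev
  have hP0 : ∀ χ : DirichletCharacter ℂ q, χ ≠ 1 → P χ 0 := by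
    intro χ hχ
    refine ⟨by simpa using ha08, fun ρ h1 h2 => ?_⟩
    have := hgood χ hχ ρ h1 h2
    simpa using this
  have hPlev : ∀ χ : DirichletCharacter ℂ q, χ ≠ 1 → P χ (lev χ) := fun χ hχ =>
    Nat.findGreatest_spec (m := 0) (Nat.zero_le _) (hP0 χ hχ)
  have hnlev : ∀ χ : DirichletCharacter ℂ q, ¬ P χ (lev χ + 1) := by
    intro χ h
    have h1 := hPK χ _ h
    exact Nat.findGreatest_is_greatest (P := P χ) (Nat.lt_succ_self (lev χ)) h1 h
  -- bound for each character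
  have hbound : ∀ χ : DirichletCharacter ℂ q, χ ≠ 1 →
      ‖SS χ x‖ ≤ (T * Real.exp (-(2 ^ lev χ * a0 * x / 4)) + 6 * E2) * D0 +
        6 * LS (1 / x) * E3 := by
    intro χ hχ
    obtain ⟨h1, h2⟩ := hPlev χ hχ
    have hpow : (1 : ℝ) ≤ 2 ^ lev χ := one_le_pow₀ (by norm_num)
    have ha : a0 ≤ 2 ^ lev χ * a0 := by nlinarith
    have h3 := norm_SS_le hχ (α := 2 ^ lev χ * a0) (T := T) (by positivity) (by linarith) h2 hT2 hx1
    refine h3.trans ?_
    have h4 : 20 * (LL q T + 3) / (2 ^ lev χ * a0) ^ 2 ≤ D0 := by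
      rw [hD0]
      apply div_le_div₀ (by positivity) (by linarith) (by positivity)
      exact pow_le_pow_left₀ ha00.le ha 2
    have h5 : 0 ≤ T * Real.exp (-(2 ^ lev χ * a0 * x / 4)) + 6 * Real.exp (-(T - 2) ^ 2 / 2) := by
      positivity
    have := mul_le_mul_of_nonneg_left h4 h5
    linarith
  -- number of characters on each level
  have hcardq : ∀ B : Finset (DirichletCharacter ℂ q), (B.card : ℝ) ≤ Real.exp L := by
    intro B
    refine le_trans ?_ hqL
    exact_mod_cast card_chars_le q B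
  have hcard : ∀ j : ℕ, (((Finset.univ.erase 1).filter (fun χ => lev χ = j)).card : ℝ) ≤
      4 * (2 + 10 * L) ^ 5 * Real.exp (40 * (2 ^ j * a0) * L) := by
    intro j
    have hpoly : (1 : ℝ) ≤ 4 * (2 + 10 * L) ^ 5 := by
      have : (1 : ℝ) ≤ (2 + 10 * L) ^ 5 := one_le_pow₀ (by linarith)
      linarith
    by_cases hj : 2 ^ (j + 1) * a0 ≤ 1 / 8
    · -- use the density estimate
      have hex : ∀ χ : DirichletCharacter ℂ q, ∃ ρ : ℂ, lev χ = j →
          LFunction χ ρ = 0 ∧ |ρ.im| ≤ T ∧ 1 - 2 ^ (j + 1) * a0 < ρ.re := by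
        intro χ
        by_cases h : lev χ = j
        · have h1 := hnlev χ
          rw [h] at h1
          simp only [hP, not_and] at h1
          have h2 := h1 hj
          push Not at h2
          obtain ⟨ρ, h3, h4, h5⟩ := h2
          exact ⟨ρ, fun _ => ⟨h3, h4, h5⟩⟩
        · exact ⟨0, fun h' => absurd h' h⟩
      choose ρ hρ using hex
      have h1 := density (q := q) (T := T) (α := 2 ^ (j + 1) * a0) (by positivity)
        (by linarith) hQ hQ4 (by linarith)
        ((Finset.univ.erase 1).filter (fun χ => lev χ = j)) ρ (by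
          intro χ hχ
          rw [Finset.mem_filter, Finset.mem_erase] at hχ
          obtain ⟨h2, h3, h4⟩ := hρ χ hχ.2
          exact ⟨hχ.1.1, h2, h4.le, h3⟩)
      rw [← hL] at h1
      refine h1.trans (le_of_eq ?_)
      rw [pow_succ]
      have : 20 * (2 ^ j * 2 * a0) * L = 40 * (2 ^ j * a0) * L := by ring
      rw [this]
      ring
    · -- trivial bound
      rw [not_le, pow_succ] at hj
      have h1 : Real.exp L ≤ Real.exp (40 * (2 ^ j * a0) * L) := by
        apply Real.exp_le_exp.2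
        nlinarith
      calc (((Finset.univ.erase 1).filter (fun χ => lev χ = j)).card : ℝ) ≤ Real.exp L := hcardq _
        _ ≤ 1 * Real.exp (40 * (2 ^ j * a0) * L) := by rw [one_mul]; exact h1
        _ ≤ _ := by gcongr
  -- contribution of each level
  set M : ℝ := 4 * (2 + 10 * L) ^ 5 * T * Real.exp (-(a0 * x / 8)) * D0 +
    Real.exp L * (6 * E2 * D0 + 6 * LS (1 / x) * E3) with hM
  have hM0 : 0 ≤ M := by positivity
  have hlevel : ∀ j : ℕ, ∑ χ ∈ (Finset.univ.erase 1).filter (fun χ => lev χ = j), ‖SS χ x‖ ≤ M := by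
    intro j
    set B := (Finset.univ.erase 1).filter
      (fun χ : DirichletCharacter ℂ q => lev χ = j) with hB
    have h1 : ∑ χ ∈ B, ‖SS χ x‖ ≤ B.card * (T * Real.exp (-(2 ^ j * a0 * x / 4)) * D0 +
        (6 * E2 * D0 + 6 * LS (1 / x) * E3)) := by
      rw [← nsmul_eq_mul]
      apply Finset.sum_le_card_nsmul
      intro χ hχ
      rw [hB, Finset.mem_filter, Finset.mem_erase] at hχ
      have := hbound χ hχ.1.1
      rw [hχ.2] at this
      linarith
    refine h1.trans ?_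
    rw [mul_add]
    apply add_le_add
    · have h2 : Real.exp (40 * (2 ^ j * a0) * L) * Real.exp (-(2 ^ j * a0 * x / 4)) ≤
          Real.exp (-(a0 * x / 8)) := by
        rw [← Real.exp_add]
        apply Real.exp_le_exp.2
        have hpow : (1 : ℝ) ≤ 2 ^ j := one_le_pow₀ (by norm_num)
        have h3 : 0 ≤ (2 ^ j * a0) * (x - 320 * L) := mul_nonneg (by positivity) (by linarith)
        have h4 : 0 ≤ (2 ^ j - 1) * (a0 * x) := mul_nonneg (by linarith) (by positivity)
        nlinarith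
      calc (B.card : ℝ) * (T * Real.exp (-(2 ^ j * a0 * x / 4)) * D0)
          ≤ (4 * (2 + 10 * L) ^ 5 * Real.exp (40 * (2 ^ j * a0) * L)) *
              (T * Real.exp (-(2 ^ j * a0 * x / 4)) * D0) :=
            mul_le_mul_of_nonneg_right (hcard j) (by positivity)
        _ = 4 * (2 + 10 * L) ^ 5 * T * (Real.exp (40 * (2 ^ j * a0) * L) *
              Real.exp (-(2 ^ j * a0 * x / 4))) * D0 := by ring
        _ ≤ 4 * (2 + 10 * L) ^ 5 * T * Real.exp (-(a0 * x / 8)) * D0 := by gcongr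
    · exact mul_le_mul_of_nonneg_right (hcardq B) (by positivity)
  have hmaps : ∀ χ ∈ (Finset.univ.erase (1 : DirichletCharacter ℂ q)),
      lev χ ∈ Finset.range (K + 1) := fun χ _ =>
    Finset.mem_range.2 (Nat.lt_succ_of_le (Nat.findGreatest_le K))
  rw [← Finset.sum_fiberwise_of_maps_to hmaps]
  calc ∑ j ∈ Finset.range (K + 1), ∑ χ ∈ (Finset.univ.erase 1).filter (fun χ => lev χ = j), ‖SS χ x‖
      ≤ ∑ j ∈ Finset.range (K + 1), M := Finset.sum_le_sum fun j _ => hlevel j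
    _ = (K + 1) * M := by rw [Finset.sum_const, Finset.card_range, nsmul_eq_mul]; push_cast; ring
    _ ≤ (L / (8 * kk) + 2) * M := by
        apply mul_le_mul_of_nonneg_right _ hM0
        have := (Nat.ceil_lt_add_one (show 0 ≤ L / (8 * kk) by positivity)).le
        rw [← hK] at this
        linarith

/-- the bound of the previous theorem is small -/
lemma numeric {B : ℝ} (hB : 1 < B) {ε : ℝ} (hε : 0 < ε) : ∃ U₀ : ℝ, 2 ≤ U₀ ∧ ∀ U : ℝ, U₀ ≤ U →
    ∀ L x : ℝ, 1 ≤ L → L ≤ 2 * U → U ^ B / 2 ≤ x → x ≤ Real.exp U →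
      (320 * L ≤ x ∧ 1 ≤ x) ∧
      (L / (8 * kk) + 2) *
        (4 * (2 + 10 * L) ^ 5 * U * Real.exp (-(kk / L * x / 8)) *
            (20 * (L + 3) / (kk / L) ^ 2) +
          Real.exp L * (6 * Real.exp (-(U - 2) ^ 2 / 2) *
            (20 * (L + 3) / (kk / L) ^ 2) +
          6 * LS (1 / x) * Real.exp (-(U - 2) ^ 2 / 4))) ≤ ε := by
  have hkk : 0 < kk := by unfold kk; norm_num
  set A1 : ℝ := 2 / (8 * kk) + 2 with hA1
  set A2 : ℝ := 400 / kk ^ 2 with hA2
  set A3 : ℝ := A1 * (4 * 22 ^ 5 * A2 + 6 * A2 + 6 * 865) with hA3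
  have hA10 : 0 < A1 := by positivity
  have hA20 : 0 < A2 := by positivity
  have hA30 : 0 < A3 := by positivity
  have hlim1 : Tendsto (fun U : ℝ => A3 * (U ^ 10 * Real.exp (-(kk / 32) * U ^ (B - 1))))
      atTop (𝓝 (A3 * 0)) := by
    apply Tendsto.const_mul
    have h1 := tendsto_rpow_mul_exp_neg_mul_atTop_nhds_zero (10 / (B - 1)) (kk / 32) (by positivity)
    have h2 : Tendsto (fun U : ℝ => U ^ (B - 1)) atTop atTop := tendsto_rpow_atTop (by linarith)
    refine (h1.comp h2).congr' ?_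
    filter_upwards [eventually_ge_atTop 0] with U hU
    simp only [Function.comp]
    congr 1
    rw [← Real.rpow_mul hU]
    have : (B - 1) * (10 / (B - 1)) = (10 : ℕ) := by
      have : B - 1 ≠ 0 := by linarith
      field_simp
      norm_num
    rw [this, Real.rpow_natCast]
  have hlim2 : Tendsto (fun U : ℝ => A3 * (U ^ 10 * Real.exp (-U))) atTop (𝓝 (A3 * 0)) := by
    apply Tendsto.const_mul
    exact Real.tendsto_pow_mul_exp_neg_atTop_nhds_zero 10
  rw [mul_zero] at hlim1 hlim2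
  have hB1 : Tendsto (fun U : ℝ => U ^ (B - 1)) atTop atTop := tendsto_rpow_atTop (by linarith)
  obtain ⟨U₁, hU₁⟩ := eventually_atTop.1 ((hlim1.eventually_lt_const (show 0 < ε / 2 by positivity)).and
    ((hlim2.eventually_lt_const (show 0 < ε / 2 by positivity)).and
      (hB1.eventually_ge_atTop 1280)))
  refine ⟨max U₁ 100, by
    have : (100:ℝ) ≤ max U₁ 100 := le_max_right _ _
    linarith, ?_⟩
  intro U hU L x hL1 hL2 hx1 hx2
  obtain ⟨h1, h2, h3⟩ := hU₁ U ((le_max_left _ _).trans hU)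
  have hU100 : 100 ≤ U := (le_max_right _ _).trans hU
  have hU0 : 0 < U := by linarith
  have hL0 : 0 < L := by linarith
  have hUB : U ^ B = U ^ (B - 1) * U := by
    rw [← Real.rpow_add_one hU0.ne']; congr 1; ring
  have hxU : 640 * U ≤ x := by
    rw [hUB] at hx1
    nlinarith
  have hx0 : 0 < x := by linarith
  have hx1' : 1 ≤ x := by linarith
  refine ⟨⟨by linarith, hx1'⟩, ?_⟩
  set e1 : ℝ := Real.exp (-(kk / 32) * U ^ (B - 1)) with he1
  set e2 : ℝ := Real.exp (-U) with he2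
  have he10 : 0 < e1 := Real.exp_pos _
  have he20 : 0 < e2 := Real.exp_pos _
  have b1 : L / (8 * kk) + 2 ≤ A1 * U := by
    rw [hA1, add_mul]
    have : L / (8 * kk) ≤ 2 / (8 * kk) * U := by
      rw [div_mul_eq_mul_div]
      exact div_le_div_of_nonneg_right hL2 (by positivity)
    linarith
  have b2 : 4 * (2 + 10 * L) ^ 5 * U ≤ 4 * 22 ^ 5 * U ^ 6 := by
    have : (2 + 10 * L) ^ 5 ≤ (22 * U) ^ 5 :=
      pow_le_pow_left₀ (by positivity) (by linarith) 5
    calc 4 * (2 + 10 * L) ^ 5 * U ≤ 4 * (22 * U) ^ 5 * U := by gcongr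
      _ = 4 * 22 ^ 5 * U ^ 6 := by ring
  have b3 : 20 * (L + 3) / (kk / L) ^ 2 ≤ A2 * U ^ 3 := by
    have e : 20 * (L + 3) / (kk / L) ^ 2 = 20 * ((L + 3) * L ^ 2) / kk ^ 2 := by
      field_simp
    rw [e, hA2, div_mul_eq_mul_div]
    apply div_le_div_of_nonneg_right _ (by positivity)
    have h2 : (L + 3) * L ^ 2 ≤ (3 * U) * (2 * U) ^ 2 :=
      mul_le_mul (by linarith) (pow_le_pow_left₀ hL0.le hL2 2) (by positivity) (by positivity)
    nlinarith [pow_pos hU0 3]
  have b3' : 0 ≤ 20 * (L + 3) / (kk / L) ^ 2 := by positivity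
  have b4 : Real.exp (-(kk / L * x / 8)) ≤ e1 := by
    rw [he1]
    apply Real.exp_le_exp.2
    have h6 : kk / 32 * U ^ (B - 1) ≤ kk / L * x / 8 := by
      have h7 : kk / L * x / 8 = kk * x / (8 * L) := by
        field_simp
      rw [h7, le_div_iff₀ (by positivity)]
      rw [hUB] at hx1
      have h8 : 0 ≤ kk * U ^ (B - 1) := by positivity
      have h9 : kk * (U ^ (B - 1) * U / 2) ≤ kk * x := mul_le_mul_of_nonneg_left hx1 hkk.le
      nlinarith
    linarith
  have b5 : Real.exp L * (x ^ 2 * Real.exp (-(U - 2) ^ 2 / 4)) ≤ e2 := by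
    have h3 : x ^ 2 ≤ Real.exp (2 * U) := by
      calc x ^ 2 ≤ (Real.exp U) ^ 2 := pow_le_pow_left₀ (by linarith) hx2 2
        _ = Real.exp (2 * U) := by rw [← Real.exp_nat_mul]; norm_num
    calc Real.exp L * (x ^ 2 * Real.exp (-(U - 2) ^ 2 / 4))
        ≤ Real.exp L * (Real.exp (2 * U) * Real.exp (-(U - 2) ^ 2 / 4)) := by gcongr
      _ = Real.exp (L + (2 * U + -(U - 2) ^ 2 / 4)) := by rw [Real.exp_add, Real.exp_add]
      _ ≤ e2 := by
          rw [he2]
          apply Real.exp_le_exp.2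
          nlinarith
  have b6 : Real.exp L * Real.exp (-(U - 2) ^ 2 / 2) ≤ e2 := by
    rw [← Real.exp_add, he2]
    apply Real.exp_le_exp.2
    nlinarith
  have hLS0 := LS_nonneg (1 / x)
  have hLS : LS (1 / x) ≤ 865 * x ^ 2 := LS_inv_le hx1'
  -- the three terms
  have t1 : 4 * (2 + 10 * L) ^ 5 * U * Real.exp (-(kk / L * x / 8)) *
      (20 * (L + 3) / (kk / L) ^ 2) ≤ (4 * 22 ^ 5 * A2) * (U ^ 9 * e1) := by
    calc 4 * (2 + 10 * L) ^ 5 * U * Real.exp (-(kk / L * x / 8)) * (20 * (L + 3) / (kk / L) ^ 2)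
        ≤ (4 * 22 ^ 5 * U ^ 6) * e1 * (A2 * U ^ 3) := by gcongr
      _ = _ := by ring
  have t2 : Real.exp L * (6 * Real.exp (-(U - 2) ^ 2 / 2) * (20 * (L + 3) / (kk / L) ^ 2)) ≤
      (6 * A2) * (U ^ 9 * e2) := by
    calc Real.exp L * (6 * Real.exp (-(U - 2) ^ 2 / 2) * (20 * (L + 3) / (kk / L) ^ 2))
        = 6 * (Real.exp L * Real.exp (-(U - 2) ^ 2 / 2)) * (20 * (L + 3) / (kk / L) ^ 2) := by ring
      _ ≤ 6 * e2 * (A2 * U ^ 3) := by gcongr
      _ = (6 * A2) * (U ^ 3 * e2) := by ring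
      _ ≤ (6 * A2) * (U ^ 9 * e2) := by
          have : U ^ 3 ≤ U ^ 9 := pow_le_pow_right₀ (by linarith) (by norm_num)
          gcongr
  have t3 : Real.exp L * (6 * LS (1 / x) * Real.exp (-(U - 2) ^ 2 / 4)) ≤
      (6 * 865) * (U ^ 9 * e2) := by
    calc Real.exp L * (6 * LS (1 / x) * Real.exp (-(U - 2) ^ 2 / 4))
        ≤ Real.exp L * (6 * (865 * x ^ 2) * Real.exp (-(U - 2) ^ 2 / 4)) := by gcongr
      _ = (6 * 865) * (Real.exp L * (x ^ 2 * Real.exp (-(U - 2) ^ 2 / 4))) := by ring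
      _ ≤ (6 * 865) * e2 := by gcongr
      _ ≤ (6 * 865) * (U ^ 9 * e2) := by
          have : 1 ≤ U ^ 9 := one_le_pow₀ (by linarith)
          have : e2 ≤ U ^ 9 * e2 := le_mul_of_one_le_left he20.le this
          gcongr
  have hsum := aux_sum t1 t2 t3 (by positivity) (by positivity) (by positivity)
    (show 0 ≤ U ^ 9 * e1 by positivity) (show 0 ≤ U ^ 9 * e2 by positivity)
  have hZ0 : 0 ≤ 4 * (2 + 10 * L) ^ 5 * U * Real.exp (-(kk / L * x / 8)) *
            (20 * (L + 3) / (kk / L) ^ 2) +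
          Real.exp L * (6 * Real.exp (-(U - 2) ^ 2 / 2) *
            (20 * (L + 3) / (kk / L) ^ 2) +
          6 * LS (1 / x) * Real.exp (-(U - 2) ^ 2 / 4)) := by positivity
  calc (L / (8 * kk) + 2) *
        (4 * (2 + 10 * L) ^ 5 * U * Real.exp (-(kk / L * x / 8)) *
            (20 * (L + 3) / (kk / L) ^ 2) +
          Real.exp L * (6 * Real.exp (-(U - 2) ^ 2 / 2) *
            (20 * (L + 3) / (kk / L) ^ 2) +
          6 * LS (1 / x) * Real.exp (-(U - 2) ^ 2 / 4)))
      ≤ (A1 * U) * ((4 * 22 ^ 5 * A2 + 6 * A2 + 6 * 865) * (U ^ 9 * e1 + U ^ 9 * e2)) := by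
        apply mul_le_mul b1 _ hZ0 (by positivity)
        rw [mul_add (Real.exp L)]
        exact hsum
    _ = A3 * (U ^ 10 * e1) + A3 * (U ^ 10 * e2) := by rw [hA3]; ring
    _ ≤ ε := by linarith

/-- **No bad characters, long range.** For every large `U` and every `z ≤ U` there is a prime
`p ∣ P(z)` such that modulo `P(z)/p` all non-principal characters together contribute at most `ε` in
the range `U^B / 2 ≤ x ≤ e^U`, `B > 1`. -/
theorem good_sum0 {B : ℝ} (hB : 1 < B) {ε : ℝ} (hε : 0 < ε) : ∃ U₀ : ℝ, ∀ U : ℝ, U₀ ≤ U →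
    ∀ z : ℕ, 2 ≤ z → (z : ℝ) ≤ U →
    ∃ p : ℕ, p.Prime ∧ p ∣ primorial z ∧ ∀ (q : ℕ) [NeZero q], q * p = primorial z →
      ∀ x : ℝ, U ^ B / 2 ≤ x → x ≤ Real.exp U →
        ∑ χ ∈ (Finset.univ : Finset (DirichletCharacter ℂ q)).erase 1, ‖SS χ x‖ ≤ ε := by
  have hkk : 0 < kk := by unfold kk; norm_num
  obtain ⟨L₀, hL₀, hgood⟩ := exists_good
  obtain ⟨U₁, hU₁2, hnum⟩ := numeric hB hε
  have hlog : Tendsto (fun U : ℝ => Real.log (2 * U + 3)) atTop atTop := by
    apply Real.tendsto_log_atTop.comp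
    exact tendsto_atTop_add_const_right _ _ (tendsto_id.const_mul_atTop (by norm_num))
  have hlog2 : ∀ᶠ U : ℝ in atTop, Real.log (2 * U + 5) ≤ U / 2 := by
    have h1 : Tendsto (fun x : ℝ => Real.log x / x) atTop (𝓝 0) := by
      have := Real.isLittleO_log_id_atTop.tendsto_div_nhds_zero
      simpa using this
    have h2 : Tendsto (fun U : ℝ => 2 * U + 5) atTop atTop :=
      tendsto_atTop_add_const_right _ _ (tendsto_id.const_mul_atTop (by norm_num))
    filter_upwards [(h1.comp h2).eventually_lt_const (show (0 : ℝ) < 1 / 8 by norm_num),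
      eventually_ge_atTop (5 : ℝ)] with U h3 h4
    simp only [Function.comp] at h3
    rw [div_lt_iff₀ (by linarith)] at h3
    linarith
  obtain ⟨U₂, hU₂⟩ := eventually_atTop.1
    ((hlog.eventually_ge_atTop (max L₀ (max (8 * kk) 1))).and hlog2)
  refine ⟨max (max U₁ U₂) 2, ?_⟩
  intro U hU z hz hzU
  have hU1 : U₁ ≤ U := (le_max_left _ _).trans ((le_max_left _ _).trans hU)
  have hU2 : U₂ ≤ U := (le_max_right _ _).trans ((le_max_left _ _).trans hU)
  have hU3 : 2 ≤ U := (le_max_right _ _).trans hU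
  obtain ⟨h1, h2⟩ := hU₂ U hU2
  have : NeZero (primorial z) := ⟨primorial_ne_zero z⟩
  have hp1 : (1 : ℝ) ≤ primorial z := by exact_mod_cast primorial_pos z
  have hp4 : (primorial z : ℝ) ≤ (4 : ℝ) ^ U := by
    calc (primorial z : ℝ) ≤ (4 : ℝ) ^ z := by exact_mod_cast primorial_le_four_pow z
      _ = (4 : ℝ) ^ (z : ℝ) := (Real.rpow_natCast _ _).symm
      _ ≤ (4 : ℝ) ^ U := Real.rpow_le_rpow_of_exponent_le (by norm_num) hzU
  -- the size parameter
  set n : ℕ := ⌈2 * U + 3⌉₊ with hn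
  have hn1 : 2 * U + 3 ≤ n := Nat.le_ceil _
  have hn2 : (n : ℝ) ≤ 2 * U + 5 := by
    have := (Nat.ceil_lt_add_one (show 0 ≤ 2 * U + 3 by linarith)).le
    rw [← hn] at this
    linarith
  set Q : ℕ := primorial z * n with hQd
  have hQR : (Q : ℝ) = primorial z * n := by rw [hQd]; push_cast; rfl
  have hLLQ : LL (primorial z) (2 * U) ≤ Real.log Q := by
    unfold LL
    apply Real.log_le_log (by positivity)
    rw [hQR]
    gcongr
  have hlogp : Real.log (primorial z) ≤ U * Real.log 4 := by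
    rw [← Real.log_rpow (by norm_num)]
    exact Real.log_le_log (by linarith) hp4
  have hlog4 : Real.log 4 ≤ 3 / 2 := by
    have : (4 : ℝ) = 2 ^ 2 := by norm_num
    rw [this, Real.log_pow]
    have := Real.log_two_lt_d9
    norm_num at this ⊢
    linarith
  have hlogp0 : 0 ≤ Real.log (primorial z) := Real.log_nonneg hp1
  have hLLge : max L₀ (max (8 * kk) 1) ≤ LL (primorial z) (2 * U) := by
    unfold LL
    rw [Real.log_mul (by linarith) (by linarith)]
    linarith
  have hLle : Real.log Q ≤ 2 * U := by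
    rw [hQR, Real.log_mul (by linarith) (by linarith)]
    have h5 : Real.log n ≤ Real.log (2 * U + 5) := Real.log_le_log (by linarith) hn2
    nlinarith
  have hsqf : Squarefree (primorial z) := by
    unfold primorial
    refine Finset.squarefree_prod_of_pairwise_isCoprime ?_ fun p hp =>
      (Finset.mem_filter.1 hp).2.squarefree
    intro p hp q hq hpq
    exact Nat.coprime_iff_isRelPrime.1 ((Nat.coprime_primes (Finset.mem_filter.1 hp).2
      (Finset.mem_filter.1 hq).2).2 hpq)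
  have hp2 : 1 < primorial z := by
    have h2p : 2 ∣ primorial z := (Nat.prime_two.dvd_primorial_iff).2 hz
    exact lt_of_lt_of_le one_lt_two (Nat.le_of_dvd (primorial_pos z) h2p)
  obtain ⟨p, hp, hpd, hg⟩ := hgood (primorial z) (2 * U) hsqf hp2 (by linarith)
    ((le_max_left _ _).trans hLLge)
  refine ⟨p, hp, hpd, ?_⟩
  intro q _ hq x hx1 hx2
  have hq1 : (1 : ℝ) ≤ q := by exact_mod_cast Nat.one_le_iff_ne_zero.2 (NeZero.ne q)
  have hqle : (q : ℝ) ≤ primorial z := by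
    exact_mod_cast Nat.le_of_dvd (primorial_pos z) ⟨p, hq.symm⟩
  have hLL0 : 0 < LL (primorial z) (2 * U) := by
    have h5 : (1:ℝ) ≤ max L₀ (max (8 * kk) 1) := (le_max_right _ _).trans (le_max_right _ _)
    linarith
  have hLQ1 : 1 ≤ Real.log Q := by
    have h5 : (1:ℝ) ≤ max L₀ (max (8 * kk) 1) := (le_max_right _ _).trans (le_max_right _ _)
    linarith
  have hLQ8 : 8 * kk ≤ Real.log Q := by
    have h5 : 8 * kk ≤ max L₀ (max (8 * kk) 1) := (le_max_left _ _).trans (le_max_right _ _)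
    linarith
  obtain ⟨⟨n1, n2⟩, n3⟩ := hnum U hU1 (Real.log Q) x hLQ1 hLle hx1 hx2
  refine le_trans (sum_SS_dens (q := q) (Q := Q) (T := U) hU3 ?_ ?_ hLQ8 hLQ1 ?_ n2 n1) n3
  · rw [hQR]
    apply mul_le_mul hqle (by linarith) (by linarith) (by linarith)
  · have h5 : (4:ℝ) ≤ Q := by
      rw [hQR]
      have : (7:ℝ) ≤ n := by linarith
      nlinarith
    exact_mod_cast h5
  · intro χ hχ ρ h5 h6
    have h7 := hg q hq χ hχ ρ h5 (by rw [mul_div_cancel_left₀ _ (by norm_num)]; exact h6)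
    have h8 : kk / Real.log Q ≤ kk / LL (primorial z) (2 * U) :=
      div_le_div_of_nonneg_left hkk.le hLL0 hLLQ
    linarith

end Pool.Agent.LibEnd63
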