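import Pool.Agent.LibH.Freq2
import Pool.Agent.LibEnd63.Sum

/-!
Rows of the matrix near `N` in the range `U^B ≤ log N ≤ exp U`, `B > 1`, with a fixed relative error.
-/

namespace Pool.Agent.LibEnd63

open Filter Topology MeasureTheory
open Pool.Agent.LibMaier Pool.Agent.LibG2 Pool.Agent.LibH

lemma err_small0 {U x : ℝ} (hU : 100 ≤ U) (hU2 : 10000 * U ≤ x) (hx2 : x ≤ Real.exp U) :
    err x U ≤ Real.exp (-(3 * U)) := by
  have hU0 : 0 < U := by linarith
  have hx0 : 0 < x := by linarith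
  have hexpU : 100 ≤ Real.exp U := by
    have := Real.add_one_le_exp U
    linarith
  have e2 : (10000 : ℝ) ≤ Real.exp (2 * U) := by
    have h1 : Real.exp (2 * U) = Real.exp U * Real.exp U := by rw [← Real.exp_add]; ring_nf
    rw [h1]
    nlinarith
  have h1 : 6920 * x ^ 2 * Real.exp (-U ^ 2 / 4) ≤ Real.exp (-(4 * U)) := by
    have h3 : x ^ 2 ≤ Real.exp (2 * U) := by
      calc x ^ 2 ≤ (Real.exp U) ^ 2 := pow_le_pow_left₀ hx0.le hx2 2
        _ = Real.exp (2 * U) := by rw [← Real.exp_nat_mul]; norm_num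
    calc 6920 * x ^ 2 * Real.exp (-U ^ 2 / 4)
        ≤ Real.exp (2 * U) * Real.exp (2 * U) * Real.exp (-U ^ 2 / 4) := by
          have := Real.exp_pos (2 * U)
          gcongr
          linarith
      _ = Real.exp (4 * U + -U ^ 2 / 4) := by
          rw [← Real.exp_add, ← Real.exp_add]
          congr 1
          ring
      _ ≤ Real.exp (-(4 * U)) := by
          apply Real.exp_le_exp.2
          nlinarith
  have h2 : 2 * (x + U) * Real.exp (-x / 2 + 3 * U / 2) ≤ Real.exp (-(4 * U)) := by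
    have h4 : x ≤ 8 * Real.exp (x / 8) := by
      have := Real.add_one_le_exp (x / 8)
      linarith
    calc 2 * (x + U) * Real.exp (-x / 2 + 3 * U / 2)
        ≤ (32 * Real.exp (x / 8)) * Real.exp (-x / 2 + 3 * U / 2) := by
          apply mul_le_mul_of_nonneg_right _ (Real.exp_pos _).le
          linarith
      _ ≤ (Real.exp (2 * U) * Real.exp (x / 8)) * Real.exp (-x / 2 + 3 * U / 2) := by
          gcongr
          linarith
      _ = Real.exp (2 * U + x / 8 + (-x / 2 + 3 * U / 2)) := by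
          rw [← Real.exp_add, ← Real.exp_add]
      _ ≤ Real.exp (-(4 * U)) := by
          apply Real.exp_le_exp.2
          linarith
  have h3 : 2 * Real.exp (-(4 * U)) ≤ Real.exp (-(3 * U)) := by
    have h5 : Real.exp (-(3 * U)) = Real.exp U * Real.exp (-(4 * U)) := by
      rw [← Real.exp_add]; ring_nf
    rw [h5]
    have := Real.exp_pos (-(4 * U))
    nlinarith
  unfold err
  linarith

/-- lower bound of the row sums -/
lemma low_bound0 {U L x δ y k Λ₁ c Q φ : ℝ} (hU : 100 ≤ U) (hLbig : 1000000 * U ≤ L)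
    (hLU : L ≤ Real.exp U) (hx : x = L - 3 * U) (hδ0 : 0 ≤ δ) (hδ1 : δ ≤ 1)
    (hy : y = Real.exp (3 * U)) (hk : Real.exp (100 * U) ≤ k)
    (hφ : 0 < φ) (hc : 0 ≤ c) (hQ : 0 ≤ Q) (hM : (1 - δ) / φ ≤ Λ₁) :
    (1 - (δ + 1 / L)) * (Q / φ * c / L) ≤
      Real.exp (-(((1 + y) * (U + 2) + 1) / k)) * (Q / (x + U)) * (c * Λ₁) := by
  have hU0 : 0 < U := by linarith
  have hL0 : 0 < L := by linarith
  have hy0 : 0 < y := by rw [hy]; exact Real.exp_pos _
  have hk0 : 0 < k := (Real.exp_pos _).trans_le hk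
  have hsmall := expo_small hU hL0 hLU hy hk
  set E : ℝ := Real.exp (-(((1 + y) * (U + 2) + 1) / k)) with hE
  have hE1 : 1 - 1 / L ≤ E := by
    have h1 := Real.add_one_le_exp (-(((1 + y) * (U + 2) + 1) / k))
    have h2 : ((1 + y) * (U + 2) + 1) / k ≤ ((1 + y) * (U + 3) + y + 1) / k := by
      apply div_le_div_of_nonneg_right _ hk0.le
      nlinarith
    linarith
  have hθ : 0 ≤ 1 - δ := by linarith
  have hfac : 1 - (δ + 1 / L) ≤ E * (1 - δ) := by
    have h2 : (1 - 1 / L) * (1 - δ) ≤ E * (1 - δ) :=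
      mul_le_mul_of_nonneg_right hE1 hθ
    refine le_trans ?_ h2
    have h3 : (1 - 1 / L) * (1 - δ) = 1 - 1 / L - δ + (1 / L) * δ := by
      ring
    have h4 : 0 ≤ (1 / L) * δ := by positivity
    rw [h3]
    linarith
  have hxU : x + U ≤ L := by linarith
  have hxU0 : 0 < x + U := by linarith
  have hqc : 0 ≤ Q * c / φ := by positivity
  have hE0 : 0 < E := Real.exp_pos _
  calc (1 - (δ + 1 / L)) * (Q / φ * c / L)
      ≤ (E * (1 - δ)) * (Q / φ * c / L) :=
        mul_le_mul_of_nonneg_right hfac (by positivity)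
    _ ≤ (E * (1 - δ)) * (Q * c / φ / (x + U)) := by
        apply mul_le_mul_of_nonneg_left _ (mul_nonneg hE0.le hθ)
        calc Q / φ * c / L = Q * c / φ / L := by ring
          _ ≤ _ := div_le_div_of_nonneg_left hqc hxU0 hxU
    _ = E * (Q / (x + U)) * (c * ((1 - δ) / φ)) := by ring
    _ ≤ E * (Q / (x + U)) * (c * Λ₁) := by
        apply mul_le_mul_of_nonneg_left _ (by positivity)
        exact mul_le_mul_of_nonneg_left hM hc

/-- upper bound of the row sums -/
lemma upp_bound0 {U L x δ y k Λ₁ c Q φ : ℝ} (hU : 100 ≤ U) (hLbig : 1000000 * U ≤ L)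
    (hLU : L ≤ Real.exp U) (hx : x = L - 3 * U) (hδ0 : 0 ≤ δ) (hδ1 : δ ≤ 1)
    (hy : y = Real.exp (3 * U)) (hk : Real.exp (100 * U) ≤ k)
    (hφ : 0 < φ) (hc : 0 ≤ c) (hQ : 0 ≤ Q) (hM : Λ₁ ≤ (1 + δ) / φ) :
    Real.exp (((1 + y) * (U + 1 + 1) + y) / k) * (Q / (x - (U + 1))) * (c * Λ₁) ≤
      (1 + 4 * (2 / L + 20 * U / L + δ)) * (Q / φ * c / L) := by
  have hU0 : 0 < U := by linarith
  have hL0 : 0 < L := by linarith
  have hy0 : 0 < y := by rw [hy]; exact Real.exp_pos _
  have hk0 : 0 < k := (Real.exp_pos _).trans_le hk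
  have hsmall := expo_small hU hL0 hLU hy hk
  have h1L : 1 / L ≤ 1 := by
    rw [div_le_one hL0]
    linarith
  set E : ℝ := Real.exp (((1 + y) * (U + 1 + 1) + y) / k) with hE
  have hE1 : E ≤ 1 + 2 / L := by
    have h2 : ((1 + y) * (U + 1 + 1) + y) / k ≤ 1 / L := by
      refine le_trans ?_ hsmall
      apply div_le_div_of_nonneg_right _ hk0.le
      nlinarith
    have h3 : E ≤ Real.exp (1 / L) := Real.exp_le_exp.2 h2
    have h4 : Real.exp (1 / L) ≤ 1 + 2 * (1 / L) := by
      have h5 := Real.abs_exp_sub_one_le (x := 1 / L) (by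
        rw [abs_of_nonneg (by positivity)]; exact h1L)
      rw [abs_of_nonneg (show (0 : ℝ) ≤ 1 / L by positivity)] at h5
      linarith [(abs_le.1 h5).2]
    calc E ≤ 1 + 2 * (1 / L) := h3.trans h4
      _ = 1 + 2 / L := by ring
  have h1 : 0 < x - (U + 1) := by linarith
  have hinv : 1 / (x - (U + 1)) ≤ (1 + 20 * U / L) / L := by
    rw [div_le_div_iff₀ h1 hL0, one_mul]
    have h3 : (1 + 20 * U / L) * (x - (U + 1)) =
        L - 4 * U - 1 + 20 * U - (20 * U / L) * (4 * U + 1) := by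
      rw [hx]
      field_simp
      ring
    rw [h3]
    have h4 : 20 * U / L ≤ 1 / 1000 := by
      rw [div_le_div_iff₀ hL0 (by norm_num)]
      linarith
    have h5 : (20 * U / L) * (4 * U + 1) ≤ 1 / 1000 * (4 * U + 1) :=
      mul_le_mul_of_nonneg_right h4 (by linarith)
    linarith
  have h20 : 20 * U / L ≤ 1 := by
    rw [div_le_one hL0]
    linarith
  have hprod := three_prod (a := 2 / L) (b := 20 * U / L) (c := δ)
    (by positivity) (by positivity) hδ0 h20 hδ1
  have hE0 : 0 < E := Real.exp_pos _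
  have hqc : 0 ≤ Q * c / φ := by positivity
  calc E * (Q / (x - (U + 1))) * (c * Λ₁)
      ≤ E * (Q / (x - (U + 1))) * (c * ((1 + δ) / φ)) := by
        apply mul_le_mul_of_nonneg_left _ (by positivity)
        exact mul_le_mul_of_nonneg_left hM hc
    _ = (E * (1 + δ)) * (Q * c / φ * (1 / (x - (U + 1)))) := by ring
    _ ≤ ((1 + 2 / L) * (1 + δ)) * (Q * c / φ * ((1 + 20 * U / L) / L)) := by
        apply mul_le_mul _ (mul_le_mul_of_nonneg_left hinv hqc) (by positivity) (by positivity)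
        exact mul_le_mul_of_nonneg_right hE1 (by positivity)
    _ = ((1 + 2 / L) * (1 + 20 * U / L) * (1 + δ)) * (Q / φ * c / L) := by
        ring
    _ ≤ (1 + 4 * (2 / L + 20 * U / L + δ)) * (Q / φ * c / L) :=
        mul_le_mul_of_nonneg_right hprod (by positivity)

/-- largeness of `L ≥ U^B` compared with `U` -/
lemma ratio_small {B : ℝ} (hB : 1 < B) {δ : ℝ} (hδ : 0 < δ) : ∃ U₀ : ℝ, ∀ U : ℝ, U₀ ≤ U →
    ∀ L : ℝ, U ^ B ≤ L → 1000000 * U ≤ L ∧ U / L ≤ δ ∧ U ^ B / 2 ≤ L - 3 * U := by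
  have h1 : Tendsto (fun U : ℝ => U ^ (B - 1)) atTop atTop := tendsto_rpow_atTop (by linarith)
  obtain ⟨U₁, hU₁⟩ := eventually_atTop.1 (h1.eventually_ge_atTop (max 1000000 (1 / δ)))
  refine ⟨max U₁ 1, ?_⟩
  intro U hU L hL
  have hUa : U₁ ≤ U := (le_max_left _ _).trans hU
  have hUb : 1 ≤ U := (le_max_right _ _).trans hU
  have hU0 : 0 < U := by linarith
  have h2 := hU₁ U hUa
  have h3 : (1000000 : ℝ) ≤ U ^ (B - 1) := (le_max_left _ _).trans h2
  have h4 : 1 / δ ≤ U ^ (B - 1) := (le_max_right _ _).trans h2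
  have h5 : U ^ B = U ^ (B - 1) * U := by
    rw [← Real.rpow_add_one hU0.ne']
    congr 1
    ring
  have h6 : 1000000 * U ≤ U ^ B := by
    rw [h5]
    exact mul_le_mul_of_nonneg_right h3 hU0.le
  refine ⟨h6.trans hL, ?_, ?_⟩
  · rw [div_le_iff₀ (by linarith)]
    have h7 : 1 ≤ δ * U ^ (B - 1) := by
      rw [div_le_iff₀ hδ] at h4
      linarith
    have h8 : U ≤ δ * U ^ B := by
      rw [h5, ← mul_assoc]
      exact le_mul_of_one_le_left hU0.le h7
    have h9 : δ * U ^ B ≤ δ * L := mul_le_mul_of_nonneg_left hL hδ.le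
    linarith
  · linarith

/-- **Rows near `N`**, fixed relative error. -/
theorem rows0 {B : ℝ} (hB : 1 < B) {ε : ℝ} (hε : 0 < ε) : ∃ U₀ : ℝ, ∀ U : ℝ, U₀ ≤ U →
    ∀ z : ℕ, 2 ≤ z → (z : ℝ) ≤ U →
    ∃ p : ℕ, p.Prime ∧ p ∣ primorial z ∧ ∀ N : ℕ, U ^ B ≤ Real.log N → Real.log N ≤ Real.exp U →
      ∀ q m h : ℕ, q * p = primorial z → m < q → (h : ℝ) ≤ Real.exp U →
        ∃ (k1 k2 : ℕ) (w : ℕ → ℝ), 1 ≤ k1 ∧ Real.exp (-(8 * U)) * N ≤ k1 ∧
          (∀ t ∈ Finset.Ico k1 k2, 0 ≤ w t ∧ k1 * w t ≤ 1 ∧ t * q + m ∈ Finset.Icc 1 N ∧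
            Real.exp (-(8 * U)) * N ≤ ((t * q + m : ℕ) : ℝ)) ∧
          ∑ t ∈ Finset.Ico k1 k2, w t ≤ 1 ∧
          1 - 1 / Real.log N ≤ ∑ t ∈ Finset.Ico k1 k2, w t ∧
          (1 - ε) * ((q : ℝ) / q.totient * (RQs q m h).card / Real.log N) ≤
            ∑ t ∈ Finset.Ico k1 k2, w t * (pw (t * q + m) h : ℝ) ∧
          ∑ t ∈ Finset.Ico k1 k2, w t * (pw (t * q + m) h : ℝ) ≤
            (1 + ε) * ((q : ℝ) / q.totient * (RQs q m h).card / Real.log N) := by
  obtain ⟨δ, hδ0, hδ1, hδε⟩ : ∃ δ : ℝ, 0 < δ ∧ δ ≤ 1 ∧ 400 * δ ≤ ε := by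
    refine ⟨min 1 (ε / 400), by positivity, min_le_left _ _, ?_⟩
    have := min_le_right (1 : ℝ) (ε / 400)
    linarith
  obtain ⟨U₁, hU₁⟩ := good_sum0 hB (show 0 < δ / 4 by positivity)
  obtain ⟨U₂, hU₂⟩ := ratio_small hB hδ0
  obtain ⟨x₀, hx₀⟩ := eventually_atTop.1
    ((tendsto_S0.sub_const 1).abs.eventually_le_const (show |(1 : ℝ) - 1| < δ / 4 by
      rw [sub_self, abs_zero]; positivity))
  obtain ⟨U₃, hU₃⟩ := eventually_atTop.1
    (((tendsto_rpow_atTop (show 0 < B by linarith)).eventually_ge_atTop (2 * x₀)))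
  refine ⟨max (max U₁ U₂) (max U₃ (100 + 4 / δ)), ?_⟩
  intro U hU z hz hzU
  have hUa : U₁ ≤ U := (le_max_left _ _).trans ((le_max_left _ _).trans hU)
  have hUb : U₂ ≤ U := (le_max_right _ _).trans ((le_max_left _ _).trans hU)
  have hUd : U₃ ≤ U := (le_max_left _ _).trans ((le_max_right _ _).trans hU)
  have hUe : 100 + 4 / δ ≤ U := (le_max_right _ _).trans ((le_max_right _ _).trans hU)
  have h4δ : 0 < 4 / δ := by positivity
  have hUc : 100 ≤ U := by linarith
  have hU0 : 0 < U := by linarith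
  obtain ⟨p, hp, hpd, hg⟩ := hU₁ U hUa z hz hzU
  refine ⟨p, hp, hpd, ?_⟩
  intro N hN1 hN2 q m h hq hmq hh
  obtain ⟨L, hL⟩ : ∃ L, L = Real.log N := ⟨_, rfl⟩
  rw [← hL] at hN1 hN2 ⊢
  obtain ⟨x, hx⟩ : ∃ x, x = L - 3 * U := ⟨_, rfl⟩
  obtain ⟨hLbig, hULδ, hxlow⟩ := hU₂ U hUb L hN1
  rw [← hx] at hxlow
  have hL0 : 0 < L := by linarith
  have hxup : x ≤ Real.exp U := by linarith
  have hx10 : 10000 * U ≤ x := by linarith
  have hx1 : 1 ≤ x := by linarith
  have hx0 : 0 < x := by linarith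
  have hq1 : 1 ≤ q := by omega
  have : NeZero q := ⟨by omega⟩
  have hqR : (1 : ℝ) ≤ q := by exact_mod_cast hq1
  have hsum := hg q hq x hxlow hxup
  have herr := err_small0 hUc hx10 hxup
  have hSx := abs_le.1 (hx₀ x (by
    have := hU₃ U hUd
    linarith))
  have hqz : ∀ r : ℕ, r.Prime → r ∣ q → (r : ℝ) ≤ z := by
    intro r hr hrq
    have h1 : r ∣ primorial z := hrq.trans ⟨p, hq.symm⟩
    exact_mod_cast (hr.dvd_primorial_iff).1 h1
  have hzx : (z : ℝ) < Real.exp (x - U) := by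
    have h1 := Real.add_one_le_exp (x - U)
    linarith
  have hφ : (0 : ℝ) < q.totient := by
    exact_mod_cast Nat.totient_pos.2 hq1
  have hqexp : (q : ℝ) ≤ Real.exp (2 * U) := q_le_exp hzU hq
  have hφq : (q.totient : ℝ) ≤ Real.exp (2 * U) := by
    have h1 : (q.totient : ℝ) ≤ q := by exact_mod_cast Nat.totient_le q
    linarith
  have hexpL : Real.exp (-U) ≤ 1 / L := by
    rw [one_div, Real.exp_neg]
    exact inv_anti₀ hL0 hN2
  have hE3 : q.totient * Real.exp (-(3 * U)) ≤ 1 / L := by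
    calc q.totient * Real.exp (-(3 * U)) ≤ Real.exp (2 * U) * Real.exp (-(3 * U)) := by gcongr
      _ = Real.exp (-U) := by rw [← Real.exp_add]; ring_nf
      _ ≤ 1 / L := hexpL
  have hE4 : Real.exp (-(3 * U)) ≤ 1 / L :=
    le_trans (Real.exp_le_exp.2 (by linarith)) hexpL
  have h1L : 1 / L ≤ δ / 4 := by
    have h1 : 4 / δ ≤ L := by linarith
    rw [div_le_iff₀ hδ0] at h1
    rw [div_le_iff₀ hL0]
    linarith
  have hN0 : (0 : ℝ) < N := by
    rcases Nat.eq_zero_or_pos N with h0 | h0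
    · rw [h0] at hL
      simp at hL
      linarith
    · exact_mod_cast h0
  have hNexp : (N : ℝ) = Real.exp L := by rw [hL, Real.exp_log hN0]
  obtain ⟨y, hy⟩ : ∃ y, y = Real.exp (3 * U) := ⟨_, rfl⟩
  have hy0 : 0 < y := by rw [hy]; exact Real.exp_pos _
  have hmh : ((m + h : ℕ) : ℝ) ≤ y := by
    push_cast
    have hmq' : (m : ℝ) ≤ q := by exact_mod_cast hmq.le
    have h1 : Real.exp (2 * U) ≤ Real.exp (3 * U - 1) := Real.exp_le_exp.2 (by linarith)
    have h2 : Real.exp U ≤ Real.exp (3 * U - 1) := Real.exp_le_exp.2 (by linarith)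
    have h3 : 2 * Real.exp (3 * U - 1) ≤ y := by
      rw [hy]
      have h4 : Real.exp (3 * U) = Real.exp 1 * Real.exp (3 * U - 1) := by
        rw [← Real.exp_add]; ring_nf
      rw [h4]
      apply mul_le_mul_of_nonneg_right _ (Real.exp_pos (3 * U - 1)).le
      have := Real.add_one_le_exp (1 : ℝ)
      linarith
    linarith
  obtain ⟨k1, k2, hk1pos, hk12, hk1a, hk1b, hrow1, hrow2, hlow, hupp, hk2N⟩ :=
    params hUc hLbig hx hqR hqexp
  have hk1R : (1 : ℝ) ≤ k1 := by exact_mod_cast hk1pos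
  have hyk : y ≤ k1 := by
    rw [hy]
    exact le_trans (Real.exp_le_exp.2 (by linarith)) hk1b
  have hk1N : Real.exp (-(8 * U)) * N ≤ k1 := by
    rw [hNexp, ← Real.exp_add]
    refine le_trans (Real.exp_le_exp.2 ?_) hk1a
    linarith
  have hlow' : ((k1 * q : ℕ) : ℝ) + y ≤ Real.exp (x - U) := by rw [hy]; exact hlow
  have hW : ∑ t ∈ Finset.Ico k1 k2, Wt q x t ≤ 1 := by
    apply sum_Wt_le_one x hk12
    apply Real.log_le_log (by positivity)
    have h1 : (k1 : ℝ) ≤ k2 := by exact_mod_cast hk12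
    gcongr
  have hWlow := weight_low hUc hL0 hN2 hqR hk1pos hk12 (by linarith) hupp
  have hcard0 : (0 : ℝ) ≤ (q : ℝ) / q.totient * (RQs q m h).card / L :=
    div_nonneg (mul_nonneg (div_nonneg (Nat.cast_nonneg _) (Nat.cast_nonneg _))
      (Nat.cast_nonneg _)) hL0.le
  refine ⟨k1, k2, Wt q x, hk1pos, hk1N, ?_, hW, hWlow, ?_, ?_⟩
  · intro t ht
    rw [Finset.mem_Ico] at ht
    have ht1 : (k1 : ℝ) ≤ t := by exact_mod_cast ht.1
    have ht0 : (0 : ℝ) < t := by linarith
    have h4 := Wt_nonneg (q := q) (k := t) hq1 (by omega) x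
    refine ⟨h4, ?_, ?_, ?_⟩
    · have h1 := Wt_le_inv (q := q) (k := t) hq1 (by omega) x
      rw [le_div_iff₀ ht0, mul_comm] at h1
      exact (mul_le_mul_of_nonneg_right ht1 h4).trans h1
    · rw [Finset.mem_Icc]
      constructor
      · have : 1 ≤ t * q := Nat.mul_pos (by omega) (by omega)
        omega
      · have h1 : ((t * q + m : ℕ) : ℝ) ≤ N := by
          have hmq' : (m : ℝ) ≤ q := by exact_mod_cast hmq.le
          have h2 : (t : ℝ) ≤ k2 := by exact_mod_cast ht.2.le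
          have h3 : (t : ℝ) * q ≤ k2 * q := mul_le_mul_of_nonneg_right h2 (by linarith)
          rw [hNexp]
          push_cast
          linarith
        exact_mod_cast h1
    · push_cast
      have h2 : (t : ℝ) ≤ t * q := le_mul_of_one_le_right ht0.le hqR
      have h3 : (0 : ℝ) ≤ m := Nat.cast_nonneg _
      linarith
  · have hM1 : (1 - δ) / q.totient ≤ (1 / (q.totient : ℝ)) * (S0 x - err x U -
      ∑ χ ∈ (Finset.univ : Finset (DirichletCharacter ℂ q)).erase 1, ‖SS χ x‖) - err x U := by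
      have h1 : (1 / (q.totient : ℝ)) * (S0 x - err x U -
          ∑ χ ∈ (Finset.univ : Finset (DirichletCharacter ℂ q)).erase 1, ‖SS χ x‖) - err x U =
          (S0 x - err x U -
          ∑ χ ∈ (Finset.univ : Finset (DirichletCharacter ℂ q)).erase 1, ‖SS χ x‖ -
          q.totient * err x U) / q.totient := by
        field_simp
      rw [h1]
      apply div_le_div_of_nonneg_right _ hφ.le
      have h2 : q.totient * err x U ≤ q.totient * Real.exp (-(3 * U)) :=
        mul_le_mul_of_nonneg_left herr hφ.le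
      linarith [hSx.1]
    have hmat := matrix_ge (q := q) (k1 := k1) (k2 := k2) (m := m) (h := h) hq1 hk1pos (x := x)
      (V := U) (y := y) hU0.le hx0 hmh hyk hrow1 hrow2 hlow' hupp
      (fun a ha => ap_primes_ge (q := q) ha (x := x) (V := U) (z := z) hx1 hU0.le hqz hzx)
    refine le_trans ?_ ((low_bound0 hUc hLbig hN2 hx hδ0.le hδ1 hy hk1b hφ (Nat.cast_nonneg _)
      (Nat.cast_nonneg _) hM1).trans hmat)
    apply mul_le_mul_of_nonneg_right _ hcard0
    linarith
  · have hM1 : (1 / (q.totient : ℝ)) * (S0 x +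
        ∑ χ ∈ (Finset.univ : Finset (DirichletCharacter ℂ q)).erase 1, ‖SS χ x‖) ≤
        (1 + δ) / q.totient := by
      have h1 : (1 / (q.totient : ℝ)) * (S0 x +
          ∑ χ ∈ (Finset.univ : Finset (DirichletCharacter ℂ q)).erase 1, ‖SS χ x‖) =
          (S0 x + ∑ χ ∈ (Finset.univ : Finset (DirichletCharacter ℂ q)).erase 1,
          ‖SS χ x‖) / q.totient := by
        ring
      rw [h1]
      apply div_le_div_of_nonneg_right _ hφ.le
      linarith [hSx.2]
    have hmat := matrix_le (q := q) (k1 := k1) (k2 := k2) (m := m) (h := h) hq1 hk1pos (x := x)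
      (V := U + 1) (y := y) (by linarith) hy0.le hmh hyk (by linarith) hrow1 hrow2
      (fun a ha => ap_sum_le ha x)
    refine (hmat.trans (upp_bound0 hUc hLbig hN2 hx hδ0.le hδ1 hy hk1b hφ
      (Nat.cast_nonneg _) (Nat.cast_nonneg _) hM1)).trans ?_
    apply mul_le_mul_of_nonneg_right _ hcard0
    have h2 : 20 * U / L = 20 * (U / L) := by ring
    have h3 : 2 / L = 2 * (1 / L) := by ring
    rw [h2, h3]
    linarith

/-- **Frequencies of the deviations**, from one class modulo `P(z)/p`, fixed relative size. -/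
theorem core_freq0 {B : ℝ} (hB : 1 < B) {a b : ℝ} (ha : 0 ≤ a) (hab : a < b) : ∃ U₀ : ℝ,
    ∀ U : ℝ, U₀ ≤ U → ∀ z : ℕ, 2 ≤ z → (z : ℝ) ≤ U →
    ∃ p : ℕ, p.Prime ∧ p ∣ primorial z ∧ ∀ N : ℕ, U ^ B ≤ Real.log N →
      Real.log N ≤ Real.exp U → ∀ q m h : ℕ, q * p = primorial z → m < q → 1 ≤ h →
        (h : ℝ) ≤ Real.exp U →
        (b * h ≤ (q : ℝ) / q.totient * (RQs q m h).card →
          Real.exp (-(12 * U)) * N ≤ (((Finset.Icc 1 N).filter (fun n =>
            a * (h / Real.log N) ≤ (pw n h : ℝ) ∧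
              Real.exp (-(8 * U)) * N ≤ (n : ℝ))).card : ℝ)) ∧
        ((q : ℝ) / q.totient * (RQs q m h).card ≤ a * h →
          Real.exp (-(12 * U)) * N ≤ (((Finset.Icc 1 N).filter (fun n =>
            (pw n h : ℝ) ≤ b * (h / Real.log N) ∧
              Real.exp (-(8 * U)) * N ≤ (n : ℝ))).card : ℝ)) := by
  have hb : 0 < b := by linarith
  have hba : 0 < b - a := by linarith
  set δ : ℝ := (b - a) / (4 * b) with hδ
  have hδ0 : 0 < δ := by positivity
  have hδb : δ * b = (b - a) / 4 := by rw [hδ]; field_simp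
  have hδ1 : δ ≤ 1 / 4 := by
    rw [hδ, div_le_iff₀ (by positivity)]
    linarith
  obtain ⟨U₁, hrows⟩ := rows0 hB hδ0
  obtain ⟨U₂, hU₂⟩ := ratio_small hB one_pos
  obtain ⟨U₃, hU₃⟩ := eventually_atTop.1 ((Real.tendsto_exp_atTop).eventually_ge_atTop
    (1 / min (b - a) 1 * 8))
  refine ⟨max (max U₁ U₂) (max U₃ (100 + 1 / δ)), ?_⟩
  intro U hU z hz hzU
  have hUa : U₁ ≤ U := (le_max_left _ _).trans ((le_max_left _ _).trans hU)
  have hUb : U₂ ≤ U := (le_max_right _ _).trans ((le_max_left _ _).trans hU)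
  have hUd : U₃ ≤ U := (le_max_left _ _).trans ((le_max_right _ _).trans hU)
  have hUe : 100 + 1 / δ ≤ U := (le_max_right _ _).trans ((le_max_right _ _).trans hU)
  have h1δ : 0 < 1 / δ := by positivity
  have hUc : 100 ≤ U := by linarith
  have hU0 : 0 < U := by linarith
  obtain ⟨p, hp, hpd, hg⟩ := hrows U hUa z hz hzU
  refine ⟨p, hp, hpd, ?_⟩
  intro N hN1 hN2 q m h hq hmq hh1 hh
  obtain ⟨k1, k2, w, hk1, hk1N, hw, hW1, hW2, hlow, hupp⟩ := hg N hN1 hN2 q m h hq hmq hh
  obtain ⟨L, hL⟩ : ∃ L, L = Real.log N := ⟨_, rfl⟩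
  rw [← hL] at hN1 hN2 hW2 hlow hupp ⊢
  obtain ⟨hLbig, -, -⟩ := hU₂ U hUb L hN1
  have hL0 : 0 < L := by linarith
  have hh0 : (0 : ℝ) < h := by exact_mod_cast hh1
  have hq1 : 1 ≤ q := by omega
  have h1L : 1 / L ≤ δ := by
    have h1 : 1 / δ ≤ L := by linarith
    rw [div_le_iff₀ hδ0] at h1
    rw [div_le_iff₀ hL0]
    linarith
  have hN0 : (0 : ℝ) ≤ N := Nat.cast_nonneg _
  -- the final count
  have hmin0 : 0 < min (b - a) 1 := by positivity
  have hfin : ∀ W : ℝ, min (b - a) 1 / (2 * L) ≤ W → Real.exp (-(12 * U)) * N ≤ k1 * W := by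
    intro W hW
    have h1 : Real.exp (-(4 * U)) ≤ min (b - a) 1 / (2 * L) := by
      rw [le_div_iff₀ (by positivity)]
      have h3 := hU₃ U hUd
      have h4 : 8 ≤ Real.exp U * min (b - a) 1 := by
        rw [one_div, inv_mul_eq_div, div_le_iff₀ hmin0] at h3
        exact h3
      have h5 : Real.exp (-(4 * U)) * (2 * L) ≤ 2 * Real.exp (-U) := by
        calc Real.exp (-(4 * U)) * (2 * L) ≤ Real.exp (-(4 * U)) * (2 * Real.exp U) := by gcongr
          _ = 2 * Real.exp (-(3 * U)) := by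
              have : Real.exp (-(3 * U)) = Real.exp (-(4 * U)) * Real.exp U := by
                rw [← Real.exp_add]
                congr 1
                ring
              rw [this]
              ring
          _ ≤ 2 * Real.exp (-U) := by
              have := Real.exp_le_exp.2 (show -(3 * U) ≤ -U by linarith)
              linarith
      have h6 : Real.exp (-U) * Real.exp U = 1 := by
        rw [← Real.exp_add]
        simp
      have h7 : 8 * Real.exp (-U) ≤ min (b - a) 1 := by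
        calc 8 * Real.exp (-U) ≤ (Real.exp U * min (b - a) 1) * Real.exp (-U) :=
              mul_le_mul_of_nonneg_right h4 (Real.exp_pos _).le
          _ = (Real.exp (-U) * Real.exp U) * min (b - a) 1 := by ring
          _ = _ := by rw [h6, one_mul]
      have h8 := Real.exp_pos (-U)
      linarith
    calc Real.exp (-(12 * U)) * N = (Real.exp (-(8 * U)) * N) * Real.exp (-(4 * U)) := by
          have : Real.exp (-(12 * U)) = Real.exp (-(8 * U)) * Real.exp (-(4 * U)) := by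
            rw [← Real.exp_add]
            congr 1
            ring
          rw [this]
          ring
      _ ≤ k1 * (min (b - a) 1 / (2 * L)) := by
          apply mul_le_mul hk1N h1 (Real.exp_pos _).le (by positivity)
      _ ≤ k1 * W := mul_le_mul_of_nonneg_left hW (Nat.cast_nonneg _)
  set Λ₀ : ℝ := (q : ℝ) / q.totient * (RQs q m h).card / L with hΛ₀
  have hΛ0 : 0 ≤ Λ₀ := by positivity
  have hlam : 0 < (h : ℝ) / L := by positivity
  have hpwh : ∀ n : ℕ, (pw n h : ℝ) ≤ h := by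
    intro n
    have : pw n h ≤ h := by
      unfold pw
      refine (Finset.card_filter_le _ _).trans ?_
      rw [Nat.card_Ioc]
      omega
    exact_mod_cast this
  have hminle : min (b - a) 1 ≤ b - a := min_le_left _ _
  constructor
  · intro hhigh
    have h1 : b * ((h : ℝ) / L) ≤ Λ₀ := by
      rw [hΛ₀, ← mul_div_assoc]
      exact div_le_div_of_nonneg_right hhigh hL0.le
    have h2 : ((a + b) / 2) * ((h : ℝ) / L) ≤ ∑ t ∈ Finset.Ico k1 k2, w t *
        (pw (t * q + m) h : ℝ) := by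
      refine le_trans ?_ hlow
      calc ((a + b) / 2) * ((h : ℝ) / L) ≤ ((1 - δ) * b) * ((h : ℝ) / L) := by
            apply mul_le_mul_of_nonneg_right _ hlam.le
            linarith
        _ = (1 - δ) * (b * ((h : ℝ) / L)) := by ring
        _ ≤ (1 - δ) * Λ₀ := by
            apply mul_le_mul_of_nonneg_left h1
            linarith
    have h3 := freq_high (s := Finset.Ico k1 k2) (w := w) (f := fun t => (pw (t * q + m) h : ℝ))
      (A := ((a + b) / 2) * ((h : ℝ) / L)) (B := a * ((h : ℝ) / L)) (H := h)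
      (fun t ht => (hw t ht).1) hW1 (by positivity) (fun t _ => hpwh _) hh0.le h2
    have h4 : min (b - a) 1 / (2 * L) ≤ ∑ t ∈ (Finset.Ico k1 k2).filter (fun t =>
        a * ((h : ℝ) / L) ≤ (pw (t * q + m) h : ℝ)), w t := by
      have h5 : ((a + b) / 2) * ((h : ℝ) / L) - a * ((h : ℝ) / L) =
          h * ((b - a) / (2 * L)) := by
        field_simp
        ring
      rw [h5] at h3
      have h6 := le_of_mul_le_mul_left h3 hh0
      refine le_trans ?_ h6
      apply div_le_div_of_nonneg_right hminle (by positivity)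
    refine (hfin _ h4).trans (count_rows (s := Finset.Ico k1 k2) (w := w) (k1 := k1) (q := q)
      (m := m) (N := N) (P := fun n => a * (h / L) ≤ (pw n h : ℝ) ∧
        Real.exp (-(8 * U)) * N ≤ (n : ℝ)) hq1 (fun t ht => (hw t ht).2.1)
      (fun t ht => (hw t ht).2.2.1) ?_)
    apply le_of_eq
    apply Finset.sum_congr _ (fun _ _ => rfl)
    apply Finset.filter_congr
    intro t ht
    constructor
    · intro h5
      exact ⟨h5, (hw t ht).2.2.2⟩
    · intro h5
      exact h5.1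
  · intro hlo
    have h1 : Λ₀ ≤ a * ((h : ℝ) / L) := by
      rw [hΛ₀, ← mul_div_assoc]
      exact div_le_div_of_nonneg_right hlo hL0.le
    have hδa : δ * a ≤ (b - a) / 4 := by
      rw [← hδb]
      exact mul_le_mul_of_nonneg_left hab.le hδ0.le
    have h2 : ∑ t ∈ Finset.Ico k1 k2, w t * (pw (t * q + m) h : ℝ) ≤
        ((a + b) / 2) * ((h : ℝ) / L) := by
      refine hupp.trans ?_
      calc (1 + δ) * Λ₀ ≤ (1 + δ) * (a * ((h : ℝ) / L)) := by
            apply mul_le_mul_of_nonneg_left h1 (by positivity)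
        _ = ((1 + δ) * a) * ((h : ℝ) / L) := by ring
        _ ≤ ((a + b) / 2) * ((h : ℝ) / L) := by
            apply mul_le_mul_of_nonneg_right _ hlam.le
            linarith
    have hB' : 0 < b * ((h : ℝ) / L) := by positivity
    have h3 := freq_low (s := Finset.Ico k1 k2) (w := w) (f := fun t => (pw (t * q + m) h : ℝ))
      (A := ((a + b) / 2) * ((h : ℝ) / L)) (B := b * ((h : ℝ) / L))
      (fun t ht => (hw t ht).1) hB' (fun t _ => Nat.cast_nonneg _) h2
    have h4 : min (b - a) 1 / (2 * L) ≤ ∑ t ∈ (Finset.Ico k1 k2).filter (fun t =>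
        (pw (t * q + m) h : ℝ) ≤ b * ((h : ℝ) / L)), w t := by
      have h5 : ((a + b) / 2) * ((h : ℝ) / L) / (b * ((h : ℝ) / L)) = 1 - 2 * δ := by
        rw [hδ]
        field_simp
        ring
      have h6 : min (b - a) 1 / (2 * L) ≤ 1 / (2 * L) :=
        div_le_div_of_nonneg_right (min_le_right _ _) (by positivity)
      have h7 : min (b - a) 1 / (2 * L) ≤ δ := by
        have h8 : 1 / (2 * L) ≤ 1 / L := by
          apply div_le_div_of_nonneg_left zero_le_one hL0
          linarith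
        linarith
      linarith
    refine (hfin _ h4).trans (count_rows (s := Finset.Ico k1 k2) (w := w) (k1 := k1) (q := q)
      (m := m) (N := N) (P := fun n => (pw n h : ℝ) ≤ b * (h / L) ∧
        Real.exp (-(8 * U)) * N ≤ (n : ℝ)) hq1 (fun t ht => (hw t ht).2.1)
      (fun t ht => (hw t ht).2.2.1) ?_)
    apply le_of_eq
    apply Finset.sum_congr _ (fun _ _ => rfl)
    apply Finset.filter_congr
    intro t ht
    constructor
    · intro h5
      exact ⟨h5, (hw t ht).2.2.2⟩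
    · intro h5
      exact h5.1

end Pool.Agent.LibEnd63
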